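import Mathlib
import Pool.Agent.H528R3.StairsA

/-!
Random walk on stairs: a Lyapunov function in closed form, with decay rate `β³/50` (the right
order of magnitude), and its growth when the bias decreases.
-/

set_option autoImplicit false

namespace Pool.Agent.Y774.ST

open Filter Topology
open Pool.Agent.H528R3.Stairs (A B T T_eq T_mono T_const A_nonneg A_le B_nonneg B_le)

noncomputable section

def P (β : ℝ) (k : ℕ) : ℝ :=
  (1-β)^k * (((k:ℝ)+1)*((k:ℝ)+2)*β^2 + 2*((k:ℝ)+2)*(1-β)*β + 2*(1-β)^2)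

def od (k : ℕ) : ℕ := if Even k then k+1 else k

def R (β : ℝ) (k : ℕ) : ℝ := β^2 * (1-β)^(od k) / (2-β)

def F (β : ℝ) (k : ℕ) : ℝ := P β k + R β k

theorem P_sub (β : ℝ) (k : ℕ) : P β k - P β (k+1) = β^3*(1-β)^k*(((k:ℝ)+1)*((k:ℝ)+2)) := by
  unfold P; push_cast; ring

theorem F_sub_even (β : ℝ) (k : ℕ) (hk : Even k) :
    F β k - F β (k+1) = β^3*(1-β)^k*(((k:ℝ)+1)*((k:ℝ)+2)) := by
  have h := P_sub β k
  have e : R β k = R β (k+1) := by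
    unfold R od
    rw [if_pos hk, if_neg (by rw [Nat.not_even_iff_odd]; exact hk.add_one)]
  unfold F; rw [e]; linarith

theorem F_sub_odd (β : ℝ) (hβ : β ≤ 1/2) (k : ℕ) (hk : ¬ Even k) :
    F β k - F β (k+1) = β^3*(1-β)^k*(((k:ℝ)+1)*((k:ℝ)+2)+1) := by
  have h := P_sub β k
  have e : R β k - R β (k+1) = β^3*(1-β)^k := by
    unfold R od
    rw [if_neg hk, if_pos (by rw [Nat.not_even_iff_odd] at hk; exact hk.add_one)]
    have : (2:ℝ) - β ≠ 0 := by linarith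
    rw [div_sub_div_same, div_eq_iff this]
    ring
  unfold F; linarith

theorem F_succ_le {β : ℝ} (h0 : 0 ≤ β) (hβ : β ≤ 1/2) (k : ℕ) : F β (k+1) ≤ F β k := by
  have hk : (0:ℝ) ≤ k := Nat.cast_nonneg k
  have hp : 0 ≤ (1-β)^k := pow_nonneg (by linarith) k
  by_cases h : Even k
  · have := F_sub_even β k h
    have : 0 ≤ β^3*(1-β)^k*(((k:ℝ)+1)*((k:ℝ)+2)) := by positivity
    linarith
  · have := F_sub_odd β hβ k h
    have : 0 ≤ β^3*(1-β)^k*(((k:ℝ)+1)*((k:ℝ)+2)+1) := by positivity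
    linarith

theorem F_antitone {β : ℝ} (h0 : 0 ≤ β) (hβ : β ≤ 1/2) : Antitone (F β) :=
  antitone_nat_of_succ_le (F_succ_le h0 hβ)

theorem R_nonneg {β : ℝ} (hβ : β ≤ 1/2) (k : ℕ) : 0 ≤ R β k := by
  unfold R
  exact div_nonneg (mul_nonneg (sq_nonneg _) (pow_nonneg (by linarith) _)) (by linarith)

/-- lower bound -/
theorem two_pow_le_F {β : ℝ} (h0 : 0 ≤ β) (hβ : β ≤ 1/2) (k : ℕ) : 2*(1/2)^k ≤ F β k := by
  have hk : (0:ℝ) ≤ k := Nat.cast_nonneg k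
  have h1 : (1/2:ℝ)^k ≤ (1-β)^k := pow_le_pow_left₀ (by norm_num) (by linarith) k
  have hp : 0 < (1/2:ℝ)^k := by positivity
  have h2 : 2 ≤ ((k:ℝ)+1)*((k:ℝ)+2)*β^2 + 2*((k:ℝ)+2)*(1-β)*β + 2*(1-β)^2 := by
    have : ((k:ℝ)+1)*((k:ℝ)+2)*β^2 + 2*((k:ℝ)+2)*(1-β)*β + 2*(1-β)^2 - 2
        = (k:ℝ)*((k:ℝ)+3)*β^2 + 2*(k:ℝ)*((1-β)*β) := by ring
    have h3 : 0 ≤ (k:ℝ)*((k:ℝ)+3)*β^2 := by positivity
    have h4 : 0 ≤ 2*(k:ℝ)*((1-β)*β) := mul_nonneg (by positivity) (mul_nonneg (by linarith) h0)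
    linarith
  have := R_nonneg hβ k
  unfold F P
  nlinarith

theorem F_pos {β : ℝ} (h0 : 0 ≤ β) (hβ : β ≤ 1/2) (k : ℕ) : 0 < F β k :=
  lt_of_lt_of_le (by positivity) (two_pow_le_F h0 hβ k)

/-- upper bound -/
theorem F_le {β : ℝ} (h0 : 0 ≤ β) (hβ : β ≤ 1/2) (k : ℕ) :
    F β k ≤ 5*(1-β)^k*(1+β^2*((k:ℝ)+1)^2) := by
  have hk : (0:ℝ) ≤ k := Nat.cast_nonneg k
  have hp : 0 ≤ (1-β)^k := pow_nonneg (by linarith) k
  have hR : R β k ≤ β^2*(1-β)^k := by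
    unfold R
    rw [div_le_iff₀ (by linarith)]
    have h1 : (1-β)^(od k) ≤ (1-β)^k := by
      apply pow_le_pow_of_le_one (by linarith) (by linarith)
      unfold od; split_ifs <;> omega
    have h2 : 0 ≤ β^2 := sq_nonneg β
    have h3 : β^2*(1-β)^(od k) ≤ β^2*(1-β)^k := mul_le_mul_of_nonneg_left h1 h2
    have h4 : 0 ≤ β^2*(1-β)^k := mul_nonneg h2 hp
    nlinarith
  have hx : 0 ≤ β*((k:ℝ)+1) := by positivity
  have hP : ((k:ℝ)+1)*((k:ℝ)+2)*β^2 + 2*((k:ℝ)+2)*(1-β)*β + 2*(1-β)^2 + β^2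
      ≤ 5*(1+β^2*((k:ℝ)+1)^2) := by
    have e : ((k:ℝ)+1)*((k:ℝ)+2)*β^2 + 2*((k:ℝ)+2)*(1-β)*β + 2*(1-β)^2 + β^2
      = (β*((k:ℝ)+1))^2 + β*(β*((k:ℝ)+1)) + 2*(1-β)*(β*((k:ℝ)+1)) + 2*(1-β)*β + 2*(1-β)^2 + β^2 := by
        ring
    rw [e]
    have e2 : β^2*((k:ℝ)+1)^2 = (β*((k:ℝ)+1))^2 := by ring
    rw [e2]
    generalize β*((k:ℝ)+1) = x at hx
    nlinarith [sq_nonneg (x-1), mul_nonneg h0 hx, mul_nonneg h0 h0]
  calc F β k = P β k + R β k := rfl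
    _ ≤ P β k + β^2*(1-β)^k := by linarith
    _ = (1-β)^k * (((k:ℝ)+1)*((k:ℝ)+2)*β^2 + 2*((k:ℝ)+2)*(1-β)*β + 2*(1-β)^2 + β^2) := by
        unfold P; ring
    _ ≤ (1-β)^k * (5*(1+β^2*((k:ℝ)+1)^2)) := mul_le_mul_of_nonneg_left hP hp
    _ = _ := by ring

theorem F_le_five {β : ℝ} (h0 : 0 ≤ β) (hβ : β ≤ 1/2) (k : ℕ) : F β k ≤ 10 := by
  have h1 := F_antitone h0 hβ (Nat.zero_le k)
  have h2 := F_le h0 hβ 0
  simp only [pow_zero, Nat.cast_zero, zero_add, mul_one, one_pow] at h2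
  nlinarith

/-- the decay of `F` in one step -/
theorem decay {β : ℝ} (h0 : 0 ≤ β) (hβ : β ≤ 1/2) (k : ℕ) :
    T β (F β) k ≤ F β k - β^3*(1-β)^(k-1)*(1/5+β*((k:ℝ)+1)^2/4) := by
  rw [T_eq]
  rcases Nat.eq_zero_or_pos k with rfl | hk
  · have hB : B 0 = 0 := by simp [B]
    have hA : A 0 = 1/2 := by simp [A]
    have h := F_sub_even β 0 (by simp)
    simp only [pow_zero, Nat.cast_zero, zero_add, mul_one, one_mul] at h
    rw [hA, hB]
    simp only [Nat.cast_zero, zero_add, one_pow, mul_one, Nat.zero_sub, pow_zero]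
    have h3 : 0 ≤ β^3 := by positivity
    have h4 : F β 1 - F β 0 = -(2*β^3) := by linarith
    rw [h4]
    nlinarith [mul_nonneg h3 h0]
  · obtain ⟨n, rfl⟩ : ∃ n, k = n + 1 := ⟨k-1, by omega⟩
    simp only [Nat.add_sub_cancel]
    have hp : 0 ≤ (1-β)^n := pow_nonneg (by linarith) n
    have h3 : 0 ≤ β^3 := by positivity
    have hβ3 : 0 ≤ β^3*(1-β)^n := mul_nonneg h3 hp
    have hn0 : (0:ℝ) ≤ n := Nat.cast_nonneg n
    -- abstract form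
    have key : ∀ u w : ℝ, 0 ≤ w → 4/5 ≤ u - w → ((n:ℝ)+2)^2/2 ≤ w →
        A (n+1) * (F β (n+1) - F β (n+1+1)) = β^3*(1-β)^n*((1-β)*(u/2)) →
        B (n+1) * (F β n - F β (n+1)) = β^3*(1-β)^n*(w/2) →
        F β (n+1) + (1/2+β)*A (n+1)*(F β (n+1+1) - F β (n+1))
          + (1/2-β)*B (n+1)*(F β n - F β (n+1))
        ≤ F β (n+1) - β^3*(1-β)^n*(1/5+β*(((n+1:ℕ):ℝ)+1)^2/4) := by
      intro u w hw huw hw2 h1 h2
      have e1 : (1/2+β)*A (n+1)*(F β (n+1+1) - F β (n+1)) + (1/2-β)*B (n+1)*(F β n - F β (n+1))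
          = -(β^3*(1-β)^n*((1/2+β)*(1-β)*(u/2) - (1/2-β)*(w/2))) := by
        calc _ = -((1/2+β)*(A (n+1)*(F β (n+1) - F β (n+1+1)))) + (1/2-β)*(B (n+1)*(F β n - F β (n+1))) := by
              ring
          _ = _ := by rw [h1, h2]; ring
      have e2 : 1/5+β*(((n+1:ℕ):ℝ)+1)^2/4 ≤ (1/2+β)*(1-β)*(u/2) - (1/2-β)*(w/2) := by
        push_cast
        have e3 : (1/2+β)*(1-β)*(u/2) - (1/2-β)*(w/2)
            = (1/4)*(u-w) + (β/2)*(1/2-β)*u + (β/2)*w := by ring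
        rw [e3]
        have hu : 0 ≤ u := by linarith
        have h5 : 0 ≤ (β/2)*(1/2-β)*u := mul_nonneg (mul_nonneg (by linarith) (by linarith)) hu
        have h6 : β*(((n:ℝ)+2)^2/2) ≤ β*w := mul_le_mul_of_nonneg_left hw2 h0
        have e4 : ((n:ℝ)+1+1) = (n:ℝ)+2 := by ring
        rw [e4]
        linarith
      have h7 := mul_le_mul_of_nonneg_left e2 hβ3
      linarith
    by_cases hev : Even (n+1)
    · -- k = n+1 even
      obtain ⟨m, hm⟩ := hev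
      have hm1 : 1 ≤ m := by omega
      have hA : A (n+1) = 1/2 := by unfold A; rw [if_pos ⟨m, hm⟩]
      have hB : B (n+1) = ((n:ℝ)+3)^2/(2*((n:ℝ)^2+4*n+5)) := by
        unfold B
        rw [if_neg (by omega), if_pos ⟨m, hm⟩]
        have hd : (n+1)/2 = m := by omega
        rw [hd]
        have hnm : (n:ℝ) = 2*m - 1 := by
          have : ((n+1:ℕ):ℝ) = ((m+m:ℕ):ℝ) := by rw [hm]
          push_cast at this; linarith
        rw [hnm]
        push_cast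
        have hmp : (0:ℝ) ≤ m := Nat.cast_nonneg m
        have hd1 : ((m:ℝ)+1)^2+(m:ℝ)^2 ≠ 0 := by positivity
        have hd2 : 2*((2*(m:ℝ)-1)^2+4*(2*m-1)+5) ≠ 0 := by
          have : 2*((2*(m:ℝ)-1)^2+4*(2*m-1)+5) = 8*m^2+8*m+4 := by ring
          rw [this]; positivity
        rw [div_eq_div_iff hd1 hd2]
        ring
      have hF1 := F_sub_even β (n+1) ⟨m, hm⟩
      have hnodd : ¬ Even n := by
        rw [Nat.not_even_iff_odd]; exact ⟨m-1, by omega⟩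
      have hF0 := F_sub_odd β hβ n hnodd
      have hden : (n:ℝ)^2+4*n+5 ≠ 0 := by positivity
      apply key (((n:ℝ)+2)*((n:ℝ)+3)) (((n:ℝ)+3)^2*(((n:ℝ)+1)*((n:ℝ)+2)+1)/((n:ℝ)^2+4*n+5))
      · positivity
      · have : ((n:ℝ)+2)*((n:ℝ)+3) - ((n:ℝ)+3)^2*(((n:ℝ)+1)*((n:ℝ)+2)+1)/((n:ℝ)^2+4*n+5)
            = ((n:ℝ)+3)*((n:ℝ)+1)/((n:ℝ)^2+4*n+5) := by
          field_simp; ring
        rw [this, le_div_iff₀ (by positivity)]
        have hn1 : (1:ℝ) ≤ n := by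
          have : 1 ≤ n := by omega
          exact_mod_cast this
        nlinarith
      · rw [le_div_iff₀ (by positivity)]
        nlinarith [mul_nonneg hn0 hn0, mul_nonneg hn0 (mul_nonneg hn0 hn0),
          mul_nonneg (mul_nonneg hn0 hn0) (mul_nonneg hn0 hn0)]
      · rw [hA, hF1]; push_cast; ring
      · rw [hB, hF0]; field_simp
    · -- k = n+1 odd
      have hodd : Odd (n+1) := Nat.not_even_iff_odd.1 hev
      obtain ⟨m, hm⟩ := hodd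
      have hnm' : n = 2*m := by omega
      have hB : B (n+1) = 1/2 := by unfold B; rw [if_neg (by omega), if_neg hev]
      have hA : A (n+1) = ((n:ℝ)+2)^2/(2*((n:ℝ)^2+6*n+10)) := by
        unfold A
        rw [if_neg hev]
        have hd : (n+1)/2 = m := by omega
        rw [hd]
        have hnm : (n:ℝ) = 2*m := by rw [hnm']; push_cast; ring
        rw [hnm]
        push_cast
        have hmp : (0:ℝ) ≤ m := Nat.cast_nonneg m
        have hd1 : ((m:ℝ)+1)^2+((m:ℝ)+2)^2 ≠ 0 := by positivity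
        have hd2 : 2*((2*(m:ℝ))^2+6*(2*m)+10) ≠ 0 := by positivity
        rw [div_eq_div_iff hd1 hd2]
        ring
      have hF1 := F_sub_odd β hβ (n+1) hev
      have hneven : Even n := ⟨m, by omega⟩
      have hF0 := F_sub_even β n hneven
      apply key (((n:ℝ)+2)^2*(((n:ℝ)+2)*((n:ℝ)+3)+1)/((n:ℝ)^2+6*n+10)) (((n:ℝ)+1)*((n:ℝ)+2))
      · positivity
      · have : ((n:ℝ)+2)^2*(((n:ℝ)+2)*((n:ℝ)+3)+1)/((n:ℝ)^2+6*n+10) - ((n:ℝ)+1)*((n:ℝ)+2)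
            = ((n:ℝ)+2)*((n:ℝ)+4)/((n:ℝ)^2+6*n+10) := by
          field_simp; ring
        rw [this, le_div_iff₀ (by positivity)]
        nlinarith
      · nlinarith
      · rw [hA, hF1]; push_cast; field_simp; ring
      · rw [hB, hF0]; ring

/-- decay with a bias `b ≥ β` -/
theorem decay' {β b : ℝ} (h0 : 0 ≤ β) (hβ : β ≤ b) (hb : b ≤ 1/2) (k : ℕ) :
    T b (F β) k ≤ (1 - β^3/50)*F β k - β^3*(1-β)^(k-1)*(1/5+β*((k:ℝ)+1)^2/4)/2 := by
  have hβ2 : β ≤ 1/2 := hβ.trans hb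
  have h1 : T b (F β) k ≤ T β (F β) k := by
    rw [T_eq, T_eq]
    have ha := F_antitone h0 hβ2 (Nat.le_succ k)
    have hb' := F_antitone h0 hβ2 (Nat.sub_le k 1)
    have hA := A_nonneg k
    have hB := B_nonneg k
    have e1 : 0 ≤ (b-β)*(A k*(F β k - F β (k+1))) :=
      mul_nonneg (by linarith) (mul_nonneg hA (by simpa using ha))
    have e2 : 0 ≤ (b-β)*(B k*(F β (k-1) - F β k)) :=
      mul_nonneg (by linarith) (mul_nonneg hB (by linarith))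
    nlinarith
  have h2 := decay h0 hβ2 k
  have h3 := F_le h0 hβ2 k
  have hk : (0:ℝ) ≤ k := Nat.cast_nonneg k
  have hp : 0 ≤ (1-β)^(k-1) := pow_nonneg (by linarith) _
  have hpp : (1-β)^k ≤ (1-β)^(k-1) :=
    pow_le_pow_of_le_one (by linarith) (by linarith) (Nat.sub_le k 1)
  have hβ3 : 0 ≤ β^3 := by positivity
  have h4 : β^3/50*F β k ≤ β^3*(1-β)^(k-1)*(1/5+β*((k:ℝ)+1)^2/4)/2 := by
    calc β^3/50*F β k ≤ β^3/50*(5*(1-β)^k*(1+β^2*((k:ℝ)+1)^2)) :=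
          mul_le_mul_of_nonneg_left h3 (by positivity)
      _ ≤ β^3/50*(5*(1-β)^(k-1)*(1+β^2*((k:ℝ)+1)^2)) := by
          apply mul_le_mul_of_nonneg_left _ (by positivity)
          apply mul_le_mul_of_nonneg_right _ (by positivity)
          linarith
      _ = β^3*(1-β)^(k-1)*((1+β^2*((k:ℝ)+1)^2)/10) := by ring
      _ ≤ β^3*(1-β)^(k-1)*((1/5+β*((k:ℝ)+1)^2/4)/2) := by
          apply mul_le_mul_of_nonneg_left _ (mul_nonneg hβ3 hp)
          have : β^2*((k:ℝ)+1)^2 ≤ β*((k:ℝ)+1)^2 := by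
            apply mul_le_mul_of_nonneg_right _ (by positivity)
            nlinarith
          have hY : 0 ≤ β*((k:ℝ)+1)^2 := by positivity
          linarith
      _ = _ := by ring
  linarith

/-! ### growth when the bias decreases -/

theorem P_deriv (k : ℕ) (x : ℝ) :
    HasDerivAt (fun x => P x k) (-((k:ℝ)*((k:ℝ)+1)*((k:ℝ)+2)*x^2*(1-x)^(k-1))) x := by
  unfold P
  have h1 : HasDerivAt (fun x : ℝ => 1 - x) (-1) x := by
    simpa using (hasDerivAt_id x).const_sub 1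
  have h2 := h1.pow k
  have h3 : HasDerivAt (fun x : ℝ => ((k:ℝ)+1)*((k:ℝ)+2)*x^2 + 2*((k:ℝ)+2)*(1-x)*x + 2*(1-x)^2)
      (((k:ℝ)+1)*((k:ℝ)+2)*(2*x) + 2*((k:ℝ)+2)*(1-2*x) - 4*(1-x)) x := by
    have e : (fun x : ℝ => ((k:ℝ)+1)*((k:ℝ)+2)*x^2 + 2*((k:ℝ)+2)*(1-x)*x + 2*(1-x)^2)
        = fun x : ℝ => (((k:ℝ)+1)*((k:ℝ)+2) - 2*((k:ℝ)+2) + 2)*x^2 + (2*((k:ℝ)+2) - 4)*x + 2 := by
      ext y; ring
    rw [e]
    have h4 := (((hasDerivAt_pow 2 x).const_mul (((k:ℝ)+1)*((k:ℝ)+2) - 2*((k:ℝ)+2) + 2)).add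
      ((hasDerivAt_id x).const_mul (2*((k:ℝ)+2) - 4))).add_const 2
    refine HasDerivAt.congr_deriv (by simpa [Pi.add_def] using h4) ?_
    ring
  have h6 : HasDerivAt (fun x : ℝ => (1-x)^k *
      (((k:ℝ)+1)*((k:ℝ)+2)*x^2 + 2*((k:ℝ)+2)*(1-x)*x + 2*(1-x)^2)) _ x := h2.mul h3
  refine h6.congr_deriv ?_
  rcases Nat.eq_zero_or_pos k with rfl | hk
  · simp; ring
  · obtain ⟨n, rfl⟩ : ∃ n, k = n + 1 := ⟨k-1, by omega⟩
    simp only [Nat.add_sub_cancel, Pi.pow_apply]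
    push_cast
    ring

theorem P_growth {β β' : ℝ} (h0 : 0 ≤ β') (h1 : β' ≤ β) (hβ : β ≤ 1/2) (k : ℕ) :
    P β' k ≤ P β k + (β-β')*((k:ℝ)*((k:ℝ)+1)*((k:ℝ)+2)*β^2*(1-β')^(k-1)) := by
  have hk : (0:ℝ) ≤ k := Nat.cast_nonneg k
  have hd : ∀ x, DifferentiableAt ℝ (fun x => P x k) x := fun x => (P_deriv k x).differentiableAt
  have key := Convex.mul_sub_le_image_sub_of_le_deriv (D := Set.Icc β' β) (convex_Icc _ _)
    (f := fun x => P x k) (fun x _ => (hd x).continuousAt.continuousWithinAt)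
    (fun x _ => (hd x).differentiableWithinAt)
    (C := -((k:ℝ)*((k:ℝ)+1)*((k:ℝ)+2)*β^2*(1-β')^(k-1)))
    (fun x hx => by
      rw [interior_Icc] at hx
      rw [(P_deriv k x).deriv]
      apply neg_le_neg
      have e1 : x^2 ≤ β^2 := pow_le_pow_left₀ (by linarith [hx.1]) hx.2.le 2
      have e2 : (1-x)^(k-1) ≤ (1-β')^(k-1) :=
        pow_le_pow_left₀ (by linarith [hx.2]) (by linarith [hx.1]) _
      have e3 : 0 ≤ (1-x)^(k-1) := pow_nonneg (by linarith [hx.2]) _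
      have e4 : x^2*(1-x)^(k-1) ≤ β^2*(1-β')^(k-1) := mul_le_mul e1 e2 e3 (sq_nonneg _)
      have e5 := mul_le_mul_of_nonneg_left e4 (by positivity : 0 ≤ (k:ℝ)*((k:ℝ)+1)*((k:ℝ)+2))
      linarith)
    β' ⟨le_rfl, h1⟩ β ⟨h1, le_rfl⟩ h1
  linarith

theorem R_growth {β β' : ℝ} (h0 : 0 ≤ β') (h1 : β' ≤ β) (hβ : β ≤ 1/2) (k : ℕ) :
    R β' k ≤ R β k + (β-β')*(((k:ℝ)+1)*β^2*(1-β')^(k-1)) := by
  unfold R
  have hk : (0:ℝ) ≤ k := Nat.cast_nonneg k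
  have hodk : k ≤ od k ∧ od k ≤ k+1 ∧ 1 ≤ od k := by
    unfold od
    split_ifs with h
    · omega
    · have : k ≠ 0 := by rintro rfl; simp at h
      omega
  have hpow : (1-β')^(od k) - (1-β)^(od k) ≤ ((k:ℝ)+1)*(β-β')*(1-β')^(k-1) := by
    have key : ∀ m : ℕ, (1-β')^m - (1-β)^m ≤ (m:ℝ)*(β-β')*(1-β')^(m-1) := by
      intro m
      induction m with
      | zero => simp
      | succ m ih =>
        rcases Nat.eq_zero_or_pos m with rfl | hm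
        · simp
        · obtain ⟨n, rfl⟩ : ∃ n, m = n + 1 := ⟨m-1, by omega⟩
          simp only [Nat.add_sub_cancel] at ih ⊢
          have e1 : 0 ≤ 1 - β' := by linarith
          have e2 : (1-β)^(n+1) ≤ (1-β')^(n+1) := pow_le_pow_left₀ (by linarith) (by linarith) _
          have e3 := mul_le_mul_of_nonneg_left ih e1
          have e4 : (1-β')^(n+1+1) - (1-β)^(n+1+1)
              = (1-β')*((1-β')^(n+1) - (1-β)^(n+1)) + (β-β')*(1-β)^(n+1) := by ring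
          have e5 : (β-β')*(1-β)^(n+1) ≤ (β-β')*(1-β')^(n+1) :=
            mul_le_mul_of_nonneg_left e2 (by linarith)
          rw [e4]
          push_cast at *
          have e6 : (1-β')*(((n:ℝ)+1)*(β-β')*(1-β')^n) = ((n:ℝ)+1)*(β-β')*(1-β')^(n+1) := by ring
          linarith
    refine (key (od k)).trans ?_
    have e1 : ((od k : ℕ):ℝ) ≤ (k:ℝ)+1 := by exact_mod_cast hodk.2.1
    have e2 : (1-β')^(od k-1) ≤ (1-β')^(k-1) :=
      pow_le_pow_of_le_one (by linarith) (by linarith) (by omega)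
    have e3 : 0 ≤ (1-β')^(od k-1) := pow_nonneg (by linarith) _
    have e4 : 0 ≤ β - β' := by linarith
    apply mul_le_mul (mul_le_mul_of_nonneg_right e1 e4) e2 e3 (by positivity)
  have hp' : 0 ≤ (1-β')^(od k) := pow_nonneg (by linarith) _
  have hp : 0 ≤ (1-β)^(od k) := pow_nonneg (by linarith) _
  have a1 : β'^2*(1-β')^(od k)/(2-β') ≤ β^2*(1-β')^(od k)/(2-β) := by
    apply div_le_div₀
    · positivity
    · exact mul_le_mul_of_nonneg_right (pow_le_pow_left₀ h0 h1 2) hp'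
    · linarith
    · linarith
  have a2 : β^2*(1-β')^(od k)/(2-β) - β^2*(1-β)^(od k)/(2-β)
      ≤ (β-β')*(((k:ℝ)+1)*β^2*(1-β')^(k-1)) := by
    rw [← sub_div, div_le_iff₀ (by linarith)]
    have a3 : β^2*((1-β')^(od k) - (1-β)^(od k)) ≤ β^2*(((k:ℝ)+1)*(β-β')*(1-β')^(k-1)) :=
      mul_le_mul_of_nonneg_left hpow (sq_nonneg _)
    have a4 : 0 ≤ (β-β')*(((k:ℝ)+1)*β^2*(1-β')^(k-1)) := by
      have : 0 ≤ (1-β')^(k-1) := pow_nonneg (by linarith) _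
      have : 0 ≤ β - β' := by linarith
      positivity
    nlinarith
  linarith

theorem F_growth {β β' : ℝ} (h0 : 0 ≤ β') (h1 : β' ≤ β) (hβ : β ≤ 1/2) (k : ℕ) :
    F β' k ≤ F β k + (β-β')*β^2*((k:ℝ)+1)^3*(1-β')^(k-1) := by
  have hP := P_growth h0 h1 hβ k
  have hR := R_growth h0 h1 hβ k
  have hk : (0:ℝ) ≤ k := Nat.cast_nonneg k
  have hp : 0 ≤ (β-β')*β^2*(1-β')^(k-1) := by
    have : 0 ≤ (1-β')^(k-1) := pow_nonneg (by linarith) _
    have : 0 ≤ β - β' := by linarith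
    positivity
  unfold F
  have e : (β-β')*((k:ℝ)*((k:ℝ)+1)*((k:ℝ)+2)*β^2*(1-β')^(k-1))
      + (β-β')*(((k:ℝ)+1)*β^2*(1-β')^(k-1)) = (β-β')*β^2*((k:ℝ)+1)^3*(1-β')^(k-1) := by ring
  linarith

/-- one step of the walk at bias `β'`, comparing the functions `F β'` and `F β`, `β' ≤ β` -/
theorem step_growth {β β' : ℝ} (h0 : 0 ≤ β') (h1 : β' ≤ β) (hβ : β ≤ 1/2) (k : ℕ)
    (hk : 8*((β-β')*β^2*((k:ℝ)+1)) ≤ β'^4) :
    T β' (F β') k ≤ (1 - β'^3/50)*F β k := by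
  have hk0 : (0:ℝ) ≤ k := Nat.cast_nonneg k
  have hd := decay' h0 (le_refl β') (h1.trans hβ) k
  have hg := F_growth h0 h1 hβ k
  have hp : 0 ≤ (1-β')^(k-1) := pow_nonneg (by linarith) _
  have hl : 0 ≤ 1 - β'^3/50 := by
    have : β'^3 ≤ 1 := pow_le_one₀ h0 (by linarith)
    linarith
  have hl1 : 1 - β'^3/50 ≤ 1 := by
    have : 0 ≤ β'^3 := by positivity
    linarith
  set X := β'^3*(1-β')^(k-1)*(1/5+β'*((k:ℝ)+1)^2/4)/2 with hX
  have hXY : (β-β')*β^2*((k:ℝ)+1)^3*(1-β')^(k-1) ≤ X := by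
    have e1 : (β-β')*β^2*((k:ℝ)+1)^3*(1-β')^(k-1)
        = ((β-β')*β^2*((k:ℝ)+1))*(((k:ℝ)+1)^2*(1-β')^(k-1)) := by ring
    have e2 : ((β-β')*β^2*((k:ℝ)+1))*(((k:ℝ)+1)^2*(1-β')^(k-1))
        ≤ (β'^4/8)*(((k:ℝ)+1)^2*(1-β')^(k-1)) :=
      mul_le_mul_of_nonneg_right (by linarith) (by positivity)
    have e3 : X = (β'^4/8)*(((k:ℝ)+1)^2*(1-β')^(k-1)) + β'^3*(1-β')^(k-1)/10 := by
      rw [hX]; ring
    have e4 : 0 ≤ β'^3*(1-β')^(k-1)/10 := by positivity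
    linarith
  have hX0 : 0 ≤ X := by rw [hX]; positivity
  calc T β' (F β') k ≤ (1 - β'^3/50)*F β' k - X := hd
    _ ≤ (1 - β'^3/50)*(F β k + X) - X := by
        have := mul_le_mul_of_nonneg_left (hg.trans (by linarith : _ ≤ F β k + X)) hl
        linarith
    _ ≤ _ := by nlinarith

end

end Pool.Agent.Y774.ST
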