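import Mathlib
import Pool.Agent.Results.MP_1da119_pr.StairsDivergence

/-!
Random walk on stairs: the Markov property for events of the past, and a maximal inequality.
-/

set_option autoImplicit false

namespace Pool.Agent.Y774.ST

open MeasureTheory ProbabilityTheory Filter Topology
open Pool.Agent.Results.MP_1da119_pr.StairsDivergence
open Pool.Agent.H528R3.Stairs (A B T T_eq T_mono T_const A_nonneg A_le B_nonneg B_le)

noncomputable section

/-- the noise extended by zero -/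
def ext (t : ℕ) (z : (Finset.range (t+1)) → ℝ × ℝ) : ℕ → ℝ × ℝ :=
  fun i => if h : i ∈ Finset.range (t+1) then z ⟨i, h⟩ else (0,0)

theorem ext_measurable (t : ℕ) : Measurable (ext t) := by
  apply measurable_pi_lambda
  intro i
  unfold ext
  by_cases h : i ∈ Finset.range (t+1)
  · simp only [h, dif_pos]; exact measurable_pi_apply _
  · simp only [h, dif_neg, not_false_eq_true]; exact measurable_const

theorem ext_eq (t : ℕ) (ω : ℕ → ℝ × ℝ) (i : ℕ) (hi : i ≤ t) :
    ext t (fun j : Finset.range (t+1) => ω j) i = ω i := by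
  unfold ext
  have : i ∈ Finset.range (t+1) := Finset.mem_range.2 (by omega)
  simp [this]

theorem integral_step_past (a : ℕ → ℝ) (t : ℕ) (Φ : (ℕ → ℝ × ℝ) → ℝ) (hm : Measurable Φ)
    (hΦ : ∀ ω ω', (∀ i ≤ t, ω i = ω' i) → Φ ω = Φ ω') (K : ℝ) (hK : ∀ ω, |Φ ω| ≤ K)
    (g : ℕ × ℕ → ℝ) (C : ℝ) (hg : ∀ x, |g x| ≤ C) :
    ∫ ω, Φ ω * g (walk a ω (t+1)) ∂noise
      = ∫ ω, Φ ω * (∫ u, g (step (a (t+1)) (walk a ω t) u) ∂unif2) ∂noise := by
  set Y : (ℕ → ℝ × ℝ) → ((Finset.range (t+1)) → ℝ × ℝ) := fun ω j => ω j with hY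
  have hYm : Measurable Y := measurable_pi_lambda _ fun j => measurable_pi_apply _
  have h1 : iIndepFun (fun (i : ℕ) (ω : ℕ → ℝ × ℝ) => ω i) noise :=
    iIndepFun_infinitePi (P := fun _ => unif2) (X := fun _ x => x) (fun _ => measurable_id)
  have h2 := h1.indepFun_finset (Finset.range (t+1)) {t+1} (by simp) (fun i => measurable_pi_apply i)
  have hψ : Measurable (fun z : ({t+1} : Finset ℕ) → ℝ × ℝ =>
      z ⟨t+1, Finset.mem_singleton_self (t+1)⟩) := measurable_pi_apply _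
  have h3 : IndepFun Y (fun ω : ℕ → ℝ × ℝ => ω (t+1)) noise := h2.comp measurable_id hψ
  have hmap : noise.map (fun ω : ℕ → ℝ × ℝ => (Y ω, ω (t+1))) = (noise.map Y).prod unif2 := by
    have h := (indepFun_iff_map_prod_eq_prod_map_map hYm.aemeasurable
      (measurable_pi_apply (t+1)).aemeasurable).1 h3
    rw [h]
    congr 1
    exact (measurePreserving_eval_infinitePi (fun _ : ℕ => unif2) (t+1)).map_eq
  have hprob : IsProbabilityMeasure (noise.map Y) := Measure.isProbabilityMeasure_map hYm.aemeasurable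
  set H : ((Finset.range (t+1)) → ℝ × ℝ) × (ℝ × ℝ) → ℝ := fun p =>
    Φ (ext t p.1) * g (step (a (t+1)) (walk a (ext t p.1) t) p.2) with hH
  have hHm : Measurable H := by
    apply Measurable.mul
    · exact hm.comp ((ext_measurable t).comp measurable_fst)
    · apply (measurable_of_countable g).comp
      exact (step_measurable (a (t+1))).comp
        ((((walk_measurable a t).comp (ext_measurable t)).comp measurable_fst).prodMk measurable_snd)
  have e0 : ∀ ω, Φ (ext t (Y ω)) = Φ ω := fun ω => hΦ _ _ fun i hi => ext_eq t ω i hi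
  have e1 : ∀ ω, walk a (ext t (Y ω)) t = walk a ω t := fun ω =>
    walk_congr a _ _ t fun i hi => ext_eq t ω i hi
  have hK0 : 0 ≤ K := (abs_nonneg _).trans (hK fun _ => (0,0))
  calc ∫ ω, Φ ω * g (walk a ω (t+1)) ∂noise
      = ∫ ω, H (Y ω, ω (t+1)) ∂noise := by
        apply integral_congr_ae
        refine Eventually.of_forall fun ω => ?_
        simp only [hH, e0, e1]
        rfl
    _ = ∫ p, H p ∂(noise.map (fun ω : ℕ → ℝ × ℝ => (Y ω, ω (t+1)))) := by
        rw [integral_map]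
        · exact (hYm.prodMk (measurable_pi_apply (t+1))).aemeasurable
        · exact hHm.aestronglyMeasurable
    _ = ∫ y, ∫ u, H (y, u) ∂unif2 ∂(noise.map Y) := by
        rw [hmap, integral_prod]
        refine Integrable.of_bound hHm.aestronglyMeasurable (K*C) (Eventually.of_forall fun p => ?_)
        simp only [hH, Real.norm_eq_abs, abs_mul]
        exact mul_le_mul (hK _) (hg _) (abs_nonneg _) hK0
    _ = ∫ ω, (∫ u, H (Y ω, u) ∂unif2) ∂noise := by
        rw [integral_map hYm.aemeasurable]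
        exact (hHm.stronglyMeasurable.integral_prod_right').aestronglyMeasurable
    _ = _ := by
        apply integral_congr_ae
        refine Eventually.of_forall fun ω => ?_
        simp only [hH, e0, e1]
        rw [integral_const_mul]

theorem integral_idx_past (a : ℕ → ℝ) (t : ℕ) (ha : 8 ≤ a (t+1)) (Φ : (ℕ → ℝ × ℝ) → ℝ)
    (hm : Measurable Φ) (hΦ : ∀ ω ω', (∀ i ≤ t, ω i = ω' i) → Φ ω = Φ ω') (K : ℝ)
    (hK : ∀ ω, |Φ ω| ≤ K) (G : ℕ → ℝ) (C : ℝ) (hG : ∀ m, |G m| ≤ C) :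
    ∫ ω, Φ ω * G (idx (walk a ω (t+1))) ∂noise
      = ∫ ω, Φ ω * T (4 / a (t+1)) G (idx (walk a ω t)) ∂noise := by
  rw [integral_step_past a t Φ hm hΦ K hK (fun x => G (idx x)) C (fun x => hG _)]
  apply integral_congr_ae
  filter_upwards [noise_nonneg] with ω hω
  congr 1
  exact one_step_idx _ ha _ (walk_mem a ω hω t) G

theorem idx_measurable (a : ℕ → ℝ) (t : ℕ) : Measurable (fun ω => idx (walk a ω t)) :=
  (measurable_of_countable idx).comp (walk_measurable a t)

theorem T_nonneg_bound {b : ℝ} (hb : 0 ≤ b) (hb2 : b ≤ 1/2) {G : ℕ → ℝ} {C : ℝ}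
    (hG0 : ∀ m, 0 ≤ G m) (hG : ∀ m, G m ≤ C) (m : ℕ) : 0 ≤ T b G m ∧ T b G m ≤ C := by
  constructor
  · have := T_mono hb hb2 hG0 m
    rwa [T_const] at this
  · have := T_mono hb hb2 hG m
    rwa [T_const] at this

theorem bias_mem {x : ℝ} (h : 8 ≤ x) : 0 ≤ 4/x ∧ 4/x ≤ 1/2 := by
  constructor
  · positivity
  · rw [div_le_iff₀ (by linarith)]; linarith

theorem integrable_past (a : ℕ → ℝ) (t : ℕ) (Φ : (ℕ → ℝ × ℝ) → ℝ)
    (hm : Measurable Φ) (K : ℝ) (hK : ∀ ω, |Φ ω| ≤ K) (G : ℕ → ℝ) (C : ℝ) (hG : ∀ m, |G m| ≤ C) :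
    Integrable (fun ω => Φ ω * G (idx (walk a ω t))) noise := by
  have hK0 : 0 ≤ K := (abs_nonneg _).trans (hK fun _ => (0,0))
  refine Integrable.of_bound (C := K*C) ?_ (Eventually.of_forall fun ω => ?_)
  · exact (hm.mul ((measurable_of_countable G).comp (idx_measurable a t))).aestronglyMeasurable
  · rw [Real.norm_eq_abs, abs_mul]
    exact mul_le_mul (hK _) (hG _) (abs_nonneg _) hK0

theorem ind1 {U : Set (ℕ → ℝ × ℝ)} {ω : ℕ → ℝ × ℝ} (h : ω ∈ U) :
    U.indicator (fun _ => (1:ℝ)) ω = 1 := Set.indicator_of_mem h _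

theorem ind0 {U : Set (ℕ → ℝ × ℝ)} {ω : ℕ → ℝ × ℝ} (h : ω ∉ U) :
    U.indicator (fun _ => (1:ℝ)) ω = 0 := Set.indicator_of_notMem h _

/-- the event: `S`, and the walk stays above `N` at the times `T₀, …, T₀+n` -/
def Kp (a : ℕ → ℝ) (S : Set (ℕ → ℝ × ℝ)) (T₀ N n : ℕ) : Set (ℕ → ℝ × ℝ) :=
  S ∩ {ω | ∀ r ≤ n, N < idx (walk a ω (T₀+r))}

theorem Kp_measurable (a : ℕ → ℝ) {S : Set (ℕ → ℝ × ℝ)} (hS : MeasurableSet S) (T₀ N n : ℕ) :
    MeasurableSet (Kp a S T₀ N n) := by
  apply hS.inter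
  have : {ω : ℕ → ℝ × ℝ | ∀ r ≤ n, N < idx (walk a ω (T₀+r))}
      = ⋂ r ∈ Finset.range (n+1), {ω | N < idx (walk a ω (T₀+r))} := by
    ext ω; simp
  rw [this]
  apply Finset.measurableSet_biInter
  intro r _
  exact (idx_measurable a _) (measurableSet_Ioi (a := N))

theorem Kp_past (a : ℕ → ℝ) {S : Set (ℕ → ℝ × ℝ)} (T₀ N n : ℕ)
    (hS : ∀ ω ω', (∀ i ≤ T₀, ω i = ω' i) → (ω ∈ S ↔ ω' ∈ S)) (ω ω' : ℕ → ℝ × ℝ)
    (h : ∀ i ≤ T₀+n, ω i = ω' i) : ω ∈ Kp a S T₀ N n ↔ ω' ∈ Kp a S T₀ N n := by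
  unfold Kp
  simp only [Set.mem_inter_iff, Set.mem_ofPred_eq]
  rw [hS ω ω' fun i hi => h i (by omega)]
  have : ∀ r ≤ n, walk a ω (T₀+r) = walk a ω' (T₀+r) := fun r hr =>
    walk_congr a _ _ _ fun i hi => h i (by omega)
  constructor
  · rintro ⟨h1, h2⟩
    exact ⟨h1, fun r hr => by rw [← this r hr]; exact h2 r hr⟩
  · rintro ⟨h1, h2⟩
    exact ⟨h1, fun r hr => by rw [this r hr]; exact h2 r hr⟩

theorem Kp_succ (a : ℕ → ℝ) (S : Set (ℕ → ℝ × ℝ)) (T₀ N n : ℕ) (ω : ℕ → ℝ × ℝ) :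
    ω ∈ Kp a S T₀ N (n+1) ↔ ω ∈ Kp a S T₀ N n ∧ N < idx (walk a ω (T₀+n+1)) := by
  unfold Kp
  simp only [Set.mem_inter_iff, Set.mem_ofPred_eq]
  constructor
  · rintro ⟨h1, h2⟩
    exact ⟨⟨h1, fun r hr => h2 r (by omega)⟩, h2 (n+1) le_rfl⟩
  · rintro ⟨⟨h1, h2⟩, h3⟩
    refine ⟨h1, fun r hr => ?_⟩
    rcases Nat.lt_or_ge n r with h | h
    · obtain rfl : r = n+1 := by omega
      exact h3
    · exact h2 r h

/-- **Maximal inequality.** -/
theorem maximal (a : ℕ → ℝ) (ha : ∀ t, 1 ≤ t → 8 ≤ a t) {S : Set (ℕ → ℝ × ℝ)}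
    (hSm : MeasurableSet S) (T₀ N : ℕ)
    (hS : ∀ ω ω', (∀ i ≤ T₀, ω i = ω' i) → (ω ∈ S ↔ ω' ∈ S))
    (G : ℕ → ℕ → ℝ) (C c : ℝ) (hc : 0 ≤ c) (ε : ℕ → ℝ)
    (hG0 : ∀ t m, 0 ≤ G t m) (hGC : ∀ t m, G t m ≤ C) (hGc : ∀ t, ∀ m ≤ N, c ≤ G t m)
    (hG : ∀ t, T₀ ≤ t → ∀ m, T (4/a (t+1)) (G (t+1)) m ≤ G t m + ε t) (hε : ∀ t, 0 ≤ ε t) (n : ℕ) :
    c * noise.real (S \ Kp a S T₀ N n)
      + ∫ ω, (Kp a S T₀ N n).indicator (fun _ => (1:ℝ)) ω * G (T₀+n) (idx (walk a ω (T₀+n))) ∂noise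
      ≤ ∫ ω, S.indicator (fun _ => (1:ℝ)) ω * G T₀ (idx (walk a ω T₀)) ∂noise
        + noise.real S * ∑ j ∈ Finset.range n, ε (T₀+j) := by
  have hind : ∀ (U : Set (ℕ → ℝ × ℝ)) ω, |U.indicator (fun _ => (1:ℝ)) ω| ≤ 1 := by
    intro U ω
    by_cases h : ω ∈ U
    · rw [Set.indicator_of_mem h]; simp
    · rw [Set.indicator_of_notMem h]; simp
  have hmi : ∀ {U : Set (ℕ → ℝ × ℝ)}, MeasurableSet U →
      Measurable (U.indicator (fun _ => (1:ℝ))) := fun hU => measurable_const.indicator hU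
  have habs : ∀ t m, |G t m| ≤ C := fun t m => by rw [abs_of_nonneg (hG0 t m)]; exact hGC t m
  induction n with
  | zero =>
    simp only [Finset.range_zero, Finset.sum_empty, mul_zero, add_zero]
    have hK := Kp_measurable a hSm T₀ N 0
    have hD : MeasurableSet (S \ Kp a S T₀ N 0) := hSm.diff hK
    have e1 : c * noise.real (S \ Kp a S T₀ N 0)
        = ∫ ω, (S \ Kp a S T₀ N 0).indicator (fun _ => (1:ℝ)) ω * c ∂noise := by
      rw [integral_mul_const, mul_comm]
      congr 1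
      exact (integral_indicator_one hD).symm
    rw [e1, ← integral_add]
    · apply integral_mono
      · exact ((integrable_past a 0 _ (hmi hD) 1 (hind _) (fun _ => c) c
          (fun _ => by rw [abs_of_nonneg hc]))).add
          (integrable_past a T₀ _ (hmi hK) 1 (hind _) (G T₀) C (habs _))
      · exact integrable_past a T₀ _ (hmi hSm) 1 (hind _) (G T₀) C (habs _)
      · intro ω
        simp only
        by_cases hωS : ω ∈ S
        · rw [ind1 hωS, one_mul]
          by_cases hωK : ω ∈ Kp a S T₀ N 0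
          · rw [ind1 hωK, ind0 (U := S \ Kp a S T₀ N 0) (fun h => h.2 hωK)]
            simp
          · rw [ind0 hωK, ind1 (U := S \ Kp a S T₀ N 0) ⟨hωS, hωK⟩]
            have : idx (walk a ω T₀) ≤ N := by
              by_contra h
              push Not at h
              exact hωK ⟨hωS, fun r hr => by
                obtain rfl : r = 0 := by omega
                simpa using h⟩
            have := hGc T₀ _ this
            linarith
        · have hωK : ω ∉ Kp a S T₀ N 0 := fun h => hωS h.1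
          rw [ind0 hωS, ind0 hωK, ind0 (U := S \ Kp a S T₀ N 0) (fun h => hωS h.1)]
          simp
    · exact ((integrable_past a 0 _ (hmi hD) 1 (hind _) (fun _ => c) c
          (fun _ => by rw [abs_of_nonneg hc])))
    · exact (integrable_past a T₀ _ (hmi hK) 1 (hind _) (G T₀) C (habs _))
  | succ n ih =>
    rw [Finset.sum_range_succ, mul_add, ← add_assoc]
    have hK := Kp_measurable a hSm T₀ N n
    have hK1 := Kp_measurable a hSm T₀ N (n+1)
    have hD : MeasurableSet (S \ Kp a S T₀ N n) := hSm.diff hK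
    have hD1 : MeasurableSet (S \ Kp a S T₀ N (n+1)) := hSm.diff hK1
    have hb := bias_mem (ha (T₀+n+1) (by omega))
    -- the exact one step identity
    have e2 := integral_idx_past a (T₀+n) (ha _ (by omega))
      ((Kp a S T₀ N n).indicator (fun _ => (1:ℝ))) (hmi hK)
      (fun ω ω' h => by
        have := Kp_past a T₀ N n hS ω ω' h
        by_cases h1 : ω ∈ Kp a S T₀ N n
        · rw [Set.indicator_of_mem h1, Set.indicator_of_mem (this.1 h1)]
        · rw [Set.indicator_of_notMem h1, Set.indicator_of_notMem (fun h2 => h1 (this.2 h2))])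
      1 (hind _) (G (T₀+n+1)) C (habs _)
    have e3 : ∫ ω, (Kp a S T₀ N n).indicator (fun _ => (1:ℝ)) ω
          * T (4/a (T₀+n+1)) (G (T₀+n+1)) (idx (walk a ω (T₀+n))) ∂noise
        ≤ ∫ ω, ((Kp a S T₀ N n).indicator (fun _ => (1:ℝ)) ω * G (T₀+n) (idx (walk a ω (T₀+n)))
          + S.indicator (fun _ => (1:ℝ)) ω * ε (T₀+n)) ∂noise := by
      apply integral_mono
      · apply integrable_past a (T₀+n) _ (hmi hK) 1 (hind _) (T (4/a (T₀+n+1)) (G (T₀+n+1))) C
        intro m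
        have := T_nonneg_bound hb.1 hb.2 (hG0 (T₀+n+1)) (hGC (T₀+n+1)) m
        rw [abs_of_nonneg this.1]; exact this.2
      · exact (integrable_past a (T₀+n) _ (hmi hK) 1 (hind _) (G (T₀+n)) C (habs _)).add
          (integrable_past a 0 _ (hmi hSm) 1 (hind _) (fun _ => ε (T₀+n)) (ε (T₀+n))
            (fun _ => by rw [abs_of_nonneg (hε _)]))
      · intro ω
        simp only
        by_cases h1 : ω ∈ Kp a S T₀ N n
        · rw [ind1 h1, ind1 h1.1, one_mul, one_mul, one_mul]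
          exact hG (T₀+n) (by omega) _
        · rw [ind0 h1, zero_mul, zero_mul, zero_add]
          exact mul_nonneg (Set.indicator_nonneg (fun _ _ => by norm_num) _) (hε _)
    rw [integral_add (integrable_past a (T₀+n) _ (hmi hK) 1 (hind _) (G (T₀+n)) C (habs _))
      (integrable_past a 0 _ (hmi hSm) 1 (hind _) (fun _ => ε (T₀+n)) (ε (T₀+n))
            (fun _ => by rw [abs_of_nonneg (hε _)])), integral_mul_const,
      show ∫ ω, S.indicator (fun _ => (1:ℝ)) ω ∂noise = noise.real S from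
        integral_indicator_one hSm] at e3
    have e4 : c * noise.real (S \ Kp a S T₀ N (n+1))
        + ∫ ω, (Kp a S T₀ N (n+1)).indicator (fun _ => (1:ℝ)) ω
            * G (T₀+n+1) (idx (walk a ω (T₀+n+1))) ∂noise
        ≤ c * noise.real (S \ Kp a S T₀ N n)
        + ∫ ω, (Kp a S T₀ N n).indicator (fun _ => (1:ℝ)) ω
            * G (T₀+n+1) (idx (walk a ω (T₀+n+1))) ∂noise := by
      have f1 : ∀ {U : Set (ℕ → ℝ × ℝ)}, MeasurableSet U →
          c * noise.real U = ∫ ω, U.indicator (fun _ => (1:ℝ)) ω * c ∂noise := by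
        intro U hU
        rw [integral_mul_const, mul_comm]
        congr 1
        exact (integral_indicator_one hU).symm
      rw [f1 hD1, f1 hD, ← integral_add, ← integral_add]
      · apply integral_mono
        · exact ((integrable_past a 0 _ (hmi hD1) 1 (hind _) (fun _ => c) c
            (fun _ => by rw [abs_of_nonneg hc]))).add
            (integrable_past a _ _ (hmi hK1) 1 (hind _) (G (T₀+n+1)) C (habs _))
        · exact ((integrable_past a 0 _ (hmi hD) 1 (hind _) (fun _ => c) c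
            (fun _ => by rw [abs_of_nonneg hc]))).add
            (integrable_past a _ _ (hmi hK) 1 (hind _) (G (T₀+n+1)) C (habs _))
        · intro ω
          simp only
          have hsucc := Kp_succ a S T₀ N n ω
          by_cases h1 : ω ∈ Kp a S T₀ N n
          · by_cases h2 : N < idx (walk a ω (T₀+n+1))
            · have h3 : ω ∈ Kp a S T₀ N (n+1) := hsucc.2 ⟨h1, h2⟩
              rw [ind1 h1, ind1 h3, ind0 (U := S \ Kp a S T₀ N n) (fun h => h.2 h1),
                ind0 (U := S \ Kp a S T₀ N (n+1)) (fun h => h.2 h3)]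
            · have h3 : ω ∉ Kp a S T₀ N (n+1) := fun h => h2 (hsucc.1 h).2
              have hωS : ω ∈ S := h1.1
              rw [ind1 h1, ind0 h3, ind0 (U := S \ Kp a S T₀ N n) (fun h => h.2 h1),
                ind1 (U := S \ Kp a S T₀ N (n+1)) ⟨hωS, h3⟩]
              push Not at h2
              have := hGc (T₀+n+1) _ h2
              linarith
          · have h3 : ω ∉ Kp a S T₀ N (n+1) := fun h => h1 (hsucc.1 h).1
            rw [ind0 h1, ind0 h3]
            by_cases hωS : ω ∈ S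
            · rw [ind1 (U := S \ Kp a S T₀ N (n+1)) ⟨hωS, h3⟩, ind1 (U := S \ Kp a S T₀ N n) ⟨hωS, h1⟩]
            · rw [ind0 (U := S \ Kp a S T₀ N (n+1)) (fun h => hωS h.1),
                ind0 (U := S \ Kp a S T₀ N n) (fun h => hωS h.1)]
      · exact ((integrable_past a 0 _ (hmi hD) 1 (hind _) (fun _ => c) c
            (fun _ => by rw [abs_of_nonneg hc])))
      · exact (integrable_past a _ _ (hmi hK) 1 (hind _) (G (T₀+n+1)) C (habs _))
      · exact ((integrable_past a 0 _ (hmi hD1) 1 (hind _) (fun _ => c) c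
            (fun _ => by rw [abs_of_nonneg hc])))
      · exact (integrable_past a _ _ (hmi hK1) 1 (hind _) (G (T₀+n+1)) C (habs _))
    rw [e2] at e4
    have e6 := e4.trans (add_le_add_right e3 (c * noise.real (S \ Kp a S T₀ N n)))
    show c * noise.real (S \ Kp a S T₀ N (n+1))
        + ∫ ω, (Kp a S T₀ N (n+1)).indicator (fun _ => (1:ℝ)) ω
            * G (T₀+n+1) (idx (walk a ω (T₀+n+1))) ∂noise ≤ _
    linarith

/-- **Maximal inequality, infinite horizon.** -/
theorem maximal_lim (a : ℕ → ℝ) (ha : ∀ t, 1 ≤ t → 8 ≤ a t) {S : Set (ℕ → ℝ × ℝ)}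
    (hSm : MeasurableSet S) (T₀ N : ℕ)
    (hS : ∀ ω ω', (∀ i ≤ T₀, ω i = ω' i) → (ω ∈ S ↔ ω' ∈ S))
    (G : ℕ → ℕ → ℝ) (C c : ℝ) (hc : 0 ≤ c) (ε : ℕ → ℝ) (E : ℝ)
    (hG0 : ∀ t m, 0 ≤ G t m) (hGC : ∀ t m, G t m ≤ C) (hGc : ∀ t, ∀ m ≤ N, c ≤ G t m)
    (hG : ∀ t, T₀ ≤ t → ∀ m, T (4/a (t+1)) (G (t+1)) m ≤ G t m + ε t) (hε : ∀ t, 0 ≤ ε t)
    (hE : ∀ n, ∑ j ∈ Finset.range n, ε (T₀+j) ≤ E) :
    c * noise.real (S ∩ {ω | ∃ r, idx (walk a ω (T₀+r)) ≤ N})
      ≤ ∫ ω, S.indicator (fun _ => (1:ℝ)) ω * G T₀ (idx (walk a ω T₀)) ∂noise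
        + noise.real S * E := by
  have hU : S ∩ {ω | ∃ r, idx (walk a ω (T₀+r)) ≤ N} = ⋃ n, S \ Kp a S T₀ N n := by
    ext ω
    simp only [Set.mem_inter_iff, Set.mem_ofPred_eq, Set.mem_iUnion, Set.mem_sdiff, Kp]
    constructor
    · rintro ⟨h1, r, hr⟩
      exact ⟨r, h1, fun h => absurd (h.2 r le_rfl) (by omega)⟩
    · rintro ⟨n, h1, h2⟩
      refine ⟨h1, ?_⟩
      by_contra h
      push Not at h
      exact h2 ⟨h1, fun r _ => h r⟩
  have hmono : Monotone fun n => S \ Kp a S T₀ N n := by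
    apply monotone_nat_of_le_succ
    intro n ω hω
    exact ⟨hω.1, fun h => hω.2 ((Kp_succ a S T₀ N n ω).1 h).1⟩
  have ht := tendsto_measure_iUnion_atTop (μ := noise) hmono
  have ht2 : Tendsto (fun n => noise.real (S \ Kp a S T₀ N n)) atTop
      (𝓝 (noise.real (⋃ n, S \ Kp a S T₀ N n))) :=
    (ENNReal.tendsto_toReal (measure_ne_top _ _)).comp ht
  rw [hU]
  refine le_of_tendsto (ht2.const_mul c) (Eventually.of_forall fun n => ?_)
  have h := maximal a ha hSm T₀ N hS G C c hc ε hG0 hGC hGc hG hε n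
  have h2 : 0 ≤ ∫ ω, (Kp a S T₀ N n).indicator (fun _ => (1:ℝ)) ω
      * G (T₀+n) (idx (walk a ω (T₀+n))) ∂noise := by
    apply integral_nonneg
    intro ω
    exact mul_nonneg (Set.indicator_nonneg (fun _ _ => by norm_num) _) (hG0 _ _)
  have := mul_le_mul_of_nonneg_left (hE n) (measureReal_nonneg (μ := noise) (s := S))
  linarith

/-- one step of the killed walk (killed at the index `0` after time `T₀`) -/
theorem killed_step (a : ℕ → ℝ) (ha : ∀ t, 1 ≤ t → 8 ≤ a t) {S : Set (ℕ → ℝ × ℝ)}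
    (hSm : MeasurableSet S) (T₀ N : ℕ)
    (hS : ∀ ω ω', (∀ i ≤ T₀, ω i = ω' i) → (ω ∈ S ↔ ω' ∈ S))
    (G : ℕ → ℝ) (C : ℝ) (hG0 : ∀ m, 0 ≤ G m) (hGC : ∀ m, G m ≤ C) (n : ℕ) :
    ∫ ω, (Kp a S T₀ N (n+1)).indicator (fun _ => (1:ℝ)) ω * G (idx (walk a ω (T₀+n+1))) ∂noise
      ≤ ∫ ω, (Kp a S T₀ N n).indicator (fun _ => (1:ℝ)) ω
          * T (4/a (T₀+n+1)) G (idx (walk a ω (T₀+n))) ∂noise := by
  have hind : ∀ (U : Set (ℕ → ℝ × ℝ)) ω, |U.indicator (fun _ => (1:ℝ)) ω| ≤ 1 := by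
    intro U ω
    by_cases h : ω ∈ U
    · rw [Set.indicator_of_mem h]; simp
    · rw [Set.indicator_of_notMem h]; simp
  have hmi : ∀ {U : Set (ℕ → ℝ × ℝ)}, MeasurableSet U →
      Measurable (U.indicator (fun _ => (1:ℝ))) := fun hU => measurable_const.indicator hU
  have habs : ∀ m, |G m| ≤ C := fun m => by rw [abs_of_nonneg (hG0 m)]; exact hGC m
  have hK := Kp_measurable a hSm T₀ N n
  have hK1 := Kp_measurable a hSm T₀ N (n+1)
  have e2 := integral_idx_past a (T₀+n) (ha _ (by omega))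
      ((Kp a S T₀ N n).indicator (fun _ => (1:ℝ))) (hmi hK)
      (fun ω ω' h => by
        have := Kp_past a T₀ N n hS ω ω' h
        by_cases h1 : ω ∈ Kp a S T₀ N n
        · rw [Set.indicator_of_mem h1, Set.indicator_of_mem (this.1 h1)]
        · rw [Set.indicator_of_notMem h1, Set.indicator_of_notMem (fun h2 => h1 (this.2 h2))])
      1 (hind _) G C habs
  rw [← e2]
  apply integral_mono
  · exact integrable_past a _ _ (hmi hK1) 1 (hind _) G C habs
  · exact integrable_past a _ _ (hmi hK) 1 (hind _) G C habs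
  · intro ω
    simp only
    apply mul_le_mul_of_nonneg_right _ (hG0 _)
    by_cases h1 : ω ∈ Kp a S T₀ N (n+1)
    · rw [ind1 h1, ind1 ((Kp_succ a S T₀ N n ω).1 h1).1]
    · rw [ind0 h1]; exact Set.indicator_nonneg (fun _ _ => by norm_num) _

/-- the index moves by at most one in each step -/
theorem idx_le (a : ℕ → ℝ) (ω : ℕ → ℝ × ℝ) (t : ℕ) : idx (walk a ω t) ≤ t := by
  have h : ∀ t, (walk a ω t).1 + (walk a ω t).2 ≤ t + 2 := by
    intro t
    induction t with
    | zero => simp [walk]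
    | succ t ih =>
      have e : walk a ω (t+1) = step (a (t+1)) (walk a ω t) (ω (t+1)) := rfl
      rw [e]
      unfold step forward backward
      simp only
      split_ifs <;> (try simp only) <;> omega
  have := h t
  unfold idx
  omega

/-- almost sure divergence from `P(∃ r, X_{T₀+r} ≤ N) → 0` -/
theorem divergence_of_idx (a : ℕ → ℝ)
    (h : ∀ N, ∀ᵐ ω ∂noise, ∀ᶠ t in atTop, N < idx (walk a ω t)) :
    ∀ᵐ ω ∂noise, Tendsto (fun t => (walk a ω t).2) atTop atTop := by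
  filter_upwards [ae_all_iff.2 h, noise_nonneg] with ω hω hω2
  rw [tendsto_atTop]
  intro b
  filter_upwards [hω (2*b)] with t ht
  obtain ⟨h1, h2, h3⟩ := walk_mem a ω hω2 t
  unfold idx at ht
  rcases h3 with h3 | h3 <;> omega

/-- conversely, divergence of the second coordinate gives divergence of the index -/
theorem idx_of_divergence (a : ℕ → ℝ) (ω : ℕ → ℝ × ℝ) (hω : ∀ i, 0 ≤ (ω i).2)
    (h : Tendsto (fun t => (walk a ω t).2) atTop atTop) :
    Tendsto (fun t => idx (walk a ω t)) atTop atTop := by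
  rw [tendsto_atTop] at h ⊢
  intro b
  filter_upwards [h (b+2)] with t ht
  obtain ⟨h1, h2, h3⟩ := walk_mem a ω hω t
  unfold idx
  rcases h3 with h3 | h3 <;> omega

end

end Pool.Agent.Y774.ST
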