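import Mathlib
import Pool.Agent.Y774.ST.Lyap
import Pool.Agent.Y774.ST.Prob

/-! Statements of the jobs of project ST (random walk on stairs, MP_1da119_pr). -/

set_option autoImplicit false

namespace Pool.Agent.Y774.ST

open MeasureTheory ProbabilityTheory Filter Topology
open Pool.Agent.Results.MP_1da119_pr.StairsDivergence
open Pool.Agent.H528R3.Stairs (A B T s)

/-- job ST-CONV: the converse, `Σ a_t⁻³ < ∞` -/
def StmConv : Prop := ∀ a : ℕ → ℝ, (∀ t, 1 ≤ t → 8 ≤ a t) →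
  (∀ s t, 1 ≤ s → s ≤ t → a s ≤ a t) → Summable (fun t => 1 / a t ^ 3) →
  noise {ω | Tendsto (fun t => (walk a ω t).2) atTop atTop} < 1

/-- job ST-H: the escape function of the walk with constant bias `b` -/
def StmH : Prop := ∀ b : ℝ, 0 < b → b ≤ 1/2 → ∃ h : ℕ → ℝ, h 0 = 0 ∧ Monotone h ∧
  (∀ m, h m ≤ 1) ∧ Tendsto h atTop (𝓝 1) ∧ h 1 ≤ 256 * b ^ 3 ∧
  ∀ b', 0 ≤ b' → b' ≤ b → ∀ m, 1 ≤ m → T b' h m ≤ h m

/-- job ST-ZERO: the walk does not diverge if `a_t ≥ 5 √t` -/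
def StmZero : Prop := ∀ a : ℕ → ℝ, (∀ t, 1 ≤ t → 8 ≤ a t) →
  (∀ t : ℕ, 1 ≤ t → 5 * Real.sqrt t ≤ a t) →
  noise {ω | Tendsto (fun t => (walk a ω t).2) atTop atTop} = 0

/-- job ST-W: without a return to `0` after the time `T₀`, the walk diverges -/
def StmW : Prop := ∀ a : ℕ → ℝ, (∀ t, 1 ≤ t → 8 ≤ a t) → ∀ T₀ : ℕ, (∀ t, T₀ ≤ t → 9 ≤ a t) →
  ∀ᵐ ω ∂noise, (∀ r, 0 < idx (walk a ω (T₀ + r))) →
    Tendsto (fun t => (walk a ω t).2) atTop atTop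

end Pool.Agent.Y774.ST
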