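import Mathlib
import Pool.Agent.Y774.ST.Lyap
import Pool.Agent.Y774.ST.Prob

/-!
Random walk on stairs: almost sure divergence whenever `a_t³ log t = o(t)`.
-/

set_option autoImplicit false

namespace Pool.Agent.Y774.ST

open MeasureTheory ProbabilityTheory Filter Topology
open Pool.Agent.Results.MP_1da119_pr.StairsDivergence
open Pool.Agent.H528R3.Stairs (A B T T_eq T_mono T_const A_nonneg A_le B_nonneg B_le)

noncomputable section

theorem F_abs {β : ℝ} (h0 : 0 ≤ β) (hβ : β ≤ 1/2) (m : ℕ) : |F β m| ≤ 10 := by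
  rw [abs_of_pos (F_pos h0 hβ m)]; exact F_le_five h0 hβ m

theorem step_integral (a : ℕ → ℝ) (t : ℕ) (ha : 8 ≤ a (t+1)) (G : ℕ → ℝ) (C : ℝ)
    (hG : ∀ m, |G m| ≤ C) :
    ∫ ω, G (idx (walk a ω (t+1))) ∂noise = ∫ ω, T (4 / a (t+1)) G (idx (walk a ω t)) ∂noise := by
  have h := integral_idx_past a t ha (fun _ => (1:ℝ)) measurable_const (fun _ _ _ => rfl) 1
    (fun _ => by simp) G C hG
  simpa using h

theorem integrable_idx (a : ℕ → ℝ) (t : ℕ) (G : ℕ → ℝ) (C : ℝ) (hG : ∀ m, |G m| ≤ C) :
    Integrable (fun ω => G (idx (walk a ω t))) noise := by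
  have h := integrable_past a t (fun _ => (1:ℝ)) measurable_const 1 (fun _ => by simp) G C hG
  simpa using h

theorem exp_decay (a : ℕ → ℝ) (ha : ∀ t, 1 ≤ t → 8 ≤ a t) (n : ℕ) (M : ℝ) (hM8 : 8 ≤ M)
    (hM : ∀ t, 1 ≤ t → t ≤ n → a t ≤ M) (t : ℕ) (ht : t ≤ n) :
    ∫ ω, F (4/M) (idx (walk a ω t)) ∂noise ≤ (1 - (4/M)^3/50)^t * 10 := by
  have hb := bias_mem hM8
  have hl : 0 ≤ 1 - (4/M)^3/50 := by
    have : (4/M)^3 ≤ 1 := pow_le_one₀ hb.1 (by linarith [hb.2])
    linarith
  induction t with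
  | zero =>
    rw [pow_zero, one_mul]
    have : ∀ ω, F (4/M) (idx (walk a ω 0)) = F (4/M) 0 := fun ω => rfl
    simp only [this, integral_const, smul_eq_mul, probReal_univ, one_mul]
    exact F_le_five hb.1 hb.2 0
  | succ t ih =>
    have hat := ha (t+1) (by omega)
    have hat2 := hM (t+1) (by omega) ht
    rw [step_integral a t hat (F (4/M)) 10 (F_abs hb.1 hb.2)]
    have hb2 := bias_mem hat
    have hle : 4/M ≤ 4/a (t+1) := div_le_div_of_nonneg_left (by norm_num) (by linarith) hat2
    calc ∫ ω, T (4 / a (t+1)) (F (4/M)) (idx (walk a ω t)) ∂noise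
        ≤ ∫ ω, (1 - (4/M)^3/50) * F (4/M) (idx (walk a ω t)) ∂noise := by
          apply integral_mono
          · apply integrable_idx a t (T (4 / a (t+1)) (F (4/M))) 10
            intro m
            have := T_nonneg_bound hb2.1 hb2.2 (fun m => (F_pos hb.1 hb.2 m).le)
                (F_le_five hb.1 hb.2) m
            rw [abs_of_nonneg this.1]; exact this.2
          · exact (integrable_idx a t (F (4/M)) 10 (F_abs hb.1 hb.2)).const_mul _
          · intro ω
            have h := decay' hb.1 hle hb2.2 (idx (walk a ω t))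
            have h2 : 0 ≤ (4/M)^3*(1-4/M)^(idx (walk a ω t)-1)
                *(1/5+(4/M)*(((idx (walk a ω t) : ℕ):ℝ)+1)^2/4)/2 := by
              have h3 : 0 ≤ (1-4/M)^(idx (walk a ω t)-1) := pow_nonneg (by linarith [hb.2]) _
              have h4 := hb.1
              positivity
            simp only
            linarith
      _ = (1 - (4/M)^3/50) * ∫ ω, F (4/M) (idx (walk a ω t)) ∂noise := integral_const_mul _ _
      _ ≤ (1 - (4/M)^3/50) * ((1 - (4/M)^3/50)^t * 10) :=
          mul_le_mul_of_nonneg_left (ih (by omega)) hl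
      _ = _ := by ring

theorem prob_le (a : ℕ → ℝ) (ha : ∀ t, 1 ≤ t → 8 ≤ a t) (n : ℕ) (M : ℝ) (hM8 : 8 ≤ M)
    (hM : ∀ t, 1 ≤ t → t ≤ n → a t ≤ M) (N : ℕ) :
    noise.real {ω | idx (walk a ω n) ≤ N} ≤ 5*2^N*Real.exp (-((4/M)^3/50*n)) := by
  have hb := bias_mem hM8
  have h1 := exp_decay a ha n M hM8 hM n le_rfl
  have hmeas : MeasurableSet {ω | idx (walk a ω n) ≤ N} :=
    (idx_measurable a n) (measurableSet_Iic (a := N))
  have h2 : noise.real {ω | idx (walk a ω n) ≤ N} * (2*(1/2)^N)
      ≤ ∫ ω, F (4/M) (idx (walk a ω n)) ∂noise := by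
    have hi : noise.real {ω | idx (walk a ω n) ≤ N} * (2*(1/2)^N)
        = ∫ ω, ({ω | idx (walk a ω n) ≤ N} : Set _).indicator (fun _ => (2*(1/2)^N : ℝ)) ω ∂noise := by
      rw [integral_indicator hmeas, integral_const]
      simp [measureReal_restrict_apply]
    rw [hi]
    apply integral_mono
    · exact (integrable_const _).indicator hmeas
    · exact integrable_idx a n (F (4/M)) 10 (F_abs hb.1 hb.2)
    · intro ω
      simp only
      by_cases h : idx (walk a ω n) ≤ N
      · rw [Set.indicator_of_mem (by exact h)]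
        exact (two_pow_le_F hb.1 hb.2 N).trans (F_antitone hb.1 hb.2 h)
      · rw [Set.indicator_of_notMem (by exact h)]
        exact (F_pos hb.1 hb.2 _).le
  have h3 : (1 - (4/M)^3/50)^n ≤ Real.exp (-((4/M)^3/50*n)) := by
    have h4 : 1 - (4/M)^3/50 ≤ Real.exp (-((4/M)^3/50)) := by
      have := Real.add_one_le_exp (-((4/M)^3/50))
      linarith
    have h5 : 0 ≤ 1 - (4/M)^3/50 := by
      have : (4/M)^3 ≤ 1 := pow_le_one₀ hb.1 (by linarith [hb.2])
      linarith
    calc (1 - (4/M)^3/50)^n ≤ (Real.exp (-((4/M)^3/50)))^n := pow_le_pow_left₀ h5 h4 n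
      _ = _ := by rw [← Real.exp_nat_mul]; congr 1; ring
  have h6 : noise.real {ω | idx (walk a ω n) ≤ N} * (2*(1/2)^N)
      ≤ 10*Real.exp (-((4/M)^3/50*n)) := by linarith
  have h7 : (2:ℝ)^N*(1/2)^N = 1 := by rw [← mul_pow]; norm_num
  calc noise.real {ω | idx (walk a ω n) ≤ N}
      = (noise.real {ω | idx (walk a ω n) ≤ N} * (2*(1/2)^N)) * (2^N/2) := by
        have : (2:ℝ)*(1/2)^N*(2^N/2) = 1 := by linarith
        rw [mul_assoc, this, mul_one]
    _ ≤ (10*Real.exp (-((4/M)^3/50*n))) * (2^N/2) :=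
        mul_le_mul_of_nonneg_right h6 (by positivity)
    _ = _ := by ring

/-- **Almost sure divergence for every sequence with `a_t³ log t = o(t)`.** -/
theorem divergence_of_small (a : ℕ → ℝ) (ha : ∀ t, 1 ≤ t → 8 ≤ a t)
    (hlim : Tendsto (fun t : ℕ => a t^3 * Real.log t / t) atTop (𝓝 0)) :
    ∀ᵐ ω ∂noise, Tendsto (fun t => (walk a ω t).2) atTop atTop := by
  apply divergence_of_idx
  intro N
  -- the bound on the running maximum
  have hmax : ∀ᶠ n : ℕ in atTop, ∀ t, 1 ≤ t → t ≤ n → 2*(a t^3*Real.log n) ≤ n := by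
    have h1 : ∀ᶠ t : ℕ in atTop, a t^3 * Real.log t / t < 1/2 := hlim.eventually (gt_mem_nhds (by norm_num))
    obtain ⟨t1, ht1⟩ := eventually_atTop.1 (h1.and (eventually_ge_atTop 3))
    set C : ℝ := ∑ t ∈ Finset.range (t1+1), |a t^3| with hCdef
    have hC : ∀ t, t ≤ t1 → a t^3 ≤ C := fun t ht =>
      (le_abs_self _).trans (Finset.single_le_sum (f := fun t => |a t^3|)
        (fun _ _ => abs_nonneg _) (Finset.mem_range.2 (by omega)))
    have hC0 : 0 ≤ C := Finset.sum_nonneg fun _ _ => abs_nonneg _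
    have hlog : Tendsto (fun n : ℕ => Real.log n / n) atTop (𝓝 0) :=
      (Real.isLittleO_log_id_atTop.tendsto_div_nhds_zero).comp tendsto_natCast_atTop_atTop
    have h2 : ∀ᶠ n : ℕ in atTop, Real.log n / n < 1/(2*(C+1)) :=
      hlog.eventually (gt_mem_nhds (by positivity))
    filter_upwards [h2, eventually_ge_atTop (t1+3)] with n hn hn3 t ht1' htn
    have hnpos : (0:ℝ) < n := by
      have : 0 < n := by omega
      exact_mod_cast this
    have hlogn : 0 ≤ Real.log n := Real.log_natCast_nonneg n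
    have hat : 0 ≤ a t^3 := by
      have := ha t ht1'
      positivity
    rcases le_or_gt t1 t with h | h
    · obtain ⟨g1, g2⟩ := ht1 t h
      have htpos : (0:ℝ) < t := by
        have : 0 < t := by omega
        exact_mod_cast this
      have he : Real.exp 1 ≤ (t:ℝ) := by
        have : (3:ℝ) ≤ t := by exact_mod_cast g2
        linarith [Real.exp_one_lt_d9]
      have htn' : (t:ℝ) ≤ n := by exact_mod_cast htn
      have hanti := Real.log_div_self_antitoneOn (a := (t:ℝ)) he (b := (n:ℝ)) (he.trans htn') htn'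
      simp only at hanti
      have g3 : a t^3 * (Real.log n / n) ≤ a t^3 * (Real.log t / t) :=
        mul_le_mul_of_nonneg_left hanti hat
      have g4 : a t^3 * (Real.log n / n) < 1/2 := by
        have : a t^3 * (Real.log t / t) = a t^3 * Real.log t / t := by ring
        linarith
      have g5 : a t^3 * Real.log n < 1/2*n := by
        have : a t^3 * (Real.log n / n) = a t^3 * Real.log n / n := by ring
        rw [this, div_lt_iff₀ hnpos] at g4
        exact g4
      linarith
    · have g1 := hC t h.le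
      rw [div_lt_div_iff₀ hnpos (by positivity)] at hn
      nlinarith [mul_le_mul_of_nonneg_right g1 hlogn]
  -- summability
  have hsum : Summable fun n => noise.real {ω | idx (walk a ω n) ≤ N} := by
    have hs : Summable fun n : ℕ => 5*2^N*(1/(n:ℝ)^2) :=
      (Real.summable_one_div_nat_pow.2 (by norm_num)).mul_left _
    apply Summable.of_norm_bounded_eventually_nat hs
    filter_upwards [hmax, eventually_ge_atTop 1] with n hn hn1
    rw [Real.norm_eq_abs, abs_of_nonneg measureReal_nonneg]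
    obtain ⟨tm, htm, htmax⟩ := Finset.exists_max_image (Finset.Icc 1 n) a ⟨1, Finset.mem_Icc.2 ⟨le_rfl, hn1⟩⟩
    rw [Finset.mem_Icc] at htm
    have hM8 := ha tm htm.1
    have hp := prob_le a ha n (a tm) hM8 (fun t h1 h2 => htmax t (Finset.mem_Icc.2 ⟨h1, h2⟩)) N
    refine hp.trans ?_
    apply mul_le_mul_of_nonneg_left _ (by positivity)
    have hnpos : (0:ℝ) < n := by exact_mod_cast hn1
    have hMpos : 0 < a tm := by linarith
    have h3 : 2*Real.log n ≤ (4/a tm)^3/50*n := by
      have h4 := hn tm htm.1 htm.2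
      have h5 : (4/a tm)^3/50*n = 64*n/(50*a tm^3) := by
        field_simp; norm_num
      rw [h5, le_div_iff₀ (by positivity)]
      have hlogn : 0 ≤ Real.log n := Real.log_natCast_nonneg n
      nlinarith
    calc Real.exp (-((4/a tm)^3/50*n)) ≤ Real.exp (-(2*Real.log n)) := Real.exp_le_exp.2 (by linarith)
      _ = 1/(n:ℝ)^2 := by
        rw [Real.exp_neg, two_mul, Real.exp_add, Real.exp_log hnpos]
        field_simp
  have hne : ∑' t, noise {ω | idx (walk a ω t) ≤ N} ≠ ⊤ := by
    have : ∀ t, noise {ω | idx (walk a ω t) ≤ N}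
        = ENNReal.ofReal (noise.real {ω | idx (walk a ω t) ≤ N}) := fun t => by
      rw [measureReal_def, ENNReal.ofReal_toReal (measure_ne_top _ _)]
    simp_rw [this]
    exact hsum.tsum_ofReal_ne_top
  filter_upwards [ae_eventually_notMem hne] with ω hω
  filter_upwards [hω] with t ht
  simpa using ht

end

end Pool.Agent.Y774.ST
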