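import Mathlib
import Pool.Agent.Y774.ST.DivA

/-!
Random walk on stairs: regular sequences.
-/

set_option autoImplicit false

namespace Pool.Agent.Y774.ST

open MeasureTheory ProbabilityTheory Filter Topology
open Pool.Agent.Results.MP_1da119_pr.StairsDivergence
open Pool.Agent.H528R3.Stairs (A B T T_eq T_mono T_const A_nonneg A_le B_nonneg B_le)

noncomputable section

/-- deterministic version of the Robbins–Siegmund lemma -/
theorem tendsto_zero_of_rec (e l ε : ℕ → ℝ) (he : ∀ n, 0 ≤ e n) (hl : ∀ n, 0 ≤ l n)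
    (hε0 : ∀ n, 0 ≤ ε n) (hε : Summable ε) (hls : ¬ Summable l)
    (hrec : ∀ n, e (n+1) ≤ (1 - l n) * e n + ε n) : Tendsto e atTop (𝓝 0) := by
  set R : ℕ → ℝ := fun n => ∑' j, ε (j+n) with hR
  have hR0 : Tendsto R atTop (𝓝 0) := tendsto_sum_nat_add ε
  have hRnn : ∀ n, 0 ≤ R n := fun n => tsum_nonneg fun _ => hε0 _
  have hRs : ∀ n, R n = ε n + R (n+1) := by
    intro n
    have h : Summable fun j => ε (j+n) := (summable_nat_add_iff n).2 hε
    show ∑' j, ε (j+n) = ε n + ∑' j, ε (j+(n+1))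
    rw [h.tsum_eq_zero_add, zero_add]
    congr 1
    apply tsum_congr
    intro j
    congr 1
    ring
  set v : ℕ → ℝ := fun n => e n + R n with hv
  have hvs : ∀ n, v (n+1) ≤ v n - l n * e n := by
    intro n
    have h1 := hrec n
    have h2 := hRs n
    simp only [hv]
    nlinarith
  have hvnn : ∀ n, 0 ≤ v n := fun n => add_nonneg (he n) (hRnn n)
  have hanti : Antitone v := antitone_nat_of_succ_le fun n => by
    have := hvs n
    have := mul_nonneg (hl n) (he n)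
    linarith
  have hbdd : BddBelow (Set.range v) := ⟨0, by rintro _ ⟨n, rfl⟩; exact hvnn n⟩
  obtain ⟨L, hL⟩ : ∃ L, Tendsto v atTop (𝓝 L) := ⟨_, tendsto_atTop_ciInf hanti hbdd⟩
  have heL : Tendsto e atTop (𝓝 L) := by
    have := hL.sub hR0
    simpa [hv] using this
  have hL0 : 0 ≤ L := ge_of_tendsto' heL he
  rcases hL0.eq_or_lt with h | h
  · rw [h]; exact heL
  · exfalso
    apply hls
    have hs : Summable fun n => v n - v (n+1) := by
      apply summable_of_sum_range_le (c := v 0)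
      · intro n
        have := hanti (Nat.le_succ n)
        simp only [Nat.succ_eq_add_one] at this
        linarith
      · intro n
        rw [Finset.sum_range_sub']
        linarith [hvnn n]
    have hev : ∀ᶠ n in atTop, L/2 < e n := heL.eventually (lt_mem_nhds (by linarith))
    apply Summable.of_norm_bounded_eventually_nat (hs.mul_left (2/L))
    filter_upwards [hev] with n hn
    rw [Real.norm_eq_abs, abs_of_nonneg (hl n)]
    have h1 := hvs n
    have h2 : l n * (L/2) ≤ l n * e n := mul_le_mul_of_nonneg_left hn.le (hl n)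
    have h3 : l n * (L/2) ≤ v n - v (n+1) := by linarith
    calc l n = (2/L) * (l n * (L/2)) := by field_simp
      _ ≤ _ := mul_le_mul_of_nonneg_left h3 (by positivity)

theorem T_le_pred {β : ℝ} (h0 : 0 ≤ β) (hβ : β ≤ 1/2) (m : ℕ) : T β (F β) m ≤ F β (m-1) := by
  rw [T_eq]
  have h1 := F_antitone h0 hβ (Nat.le_succ m)
  have h2 := F_antitone h0 hβ (Nat.sub_le m 1)
  simp only [Nat.succ_eq_add_one] at h1
  have hA : 0 ≤ (1/2+β)*A m := mul_nonneg (by linarith) (A_nonneg m)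
  have hB1 : (1/2-β)*B m ≤ 1 := by nlinarith [B_le m, B_nonneg m]
  have e1 : (1/2+β)*A m*(F β (m+1) - F β m) ≤ 0 :=
    mul_nonpos_of_nonneg_of_nonpos hA (by linarith)
  have e2 : (1/2-β)*B m*(F β (m-1) - F β m) ≤ 1*(F β (m-1) - F β m) :=
    mul_le_mul_of_nonneg_right hB1 (by linarith)
  linarith

theorem one_add_sq_le (x : ℝ) (hx : 0 ≤ x) : 1 + x^2 ≤ 8 * Real.exp (x/2) := by
  have := Real.quadratic_le_exp_of_nonneg (show 0 ≤ x/2 by linarith)
  nlinarith

/-- exponential smallness of `F` far away -/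
theorem F_pred_le {β : ℝ} (h0 : 0 ≤ β) (hβ : β ≤ 1/2) (m : ℕ) :
    F β (m-1) ≤ 120 * Real.exp (-(β*((m:ℝ)+1)/2)) := by
  rcases Nat.eq_zero_or_pos m with rfl | hm
  · have h1 := F_le_five h0 hβ 0
    have h2 := Real.add_one_le_exp (-(β*(((0:ℕ):ℝ)+1)/2))
    simp only [Nat.cast_zero, zero_add, mul_one, Nat.zero_sub] at *
    linarith
  · obtain ⟨n, rfl⟩ : ∃ n, m = n + 1 := ⟨m-1, by omega⟩
    simp only [Nat.add_sub_cancel]
    have h1 := F_le h0 hβ n
    have hx : 0 ≤ β*((n:ℝ)+1) := by positivity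
    have h2 := one_add_sq_le _ hx
    have h3 : (1-β)^n ≤ Real.exp (-(β*n)) := by
      have h4 : 1 - β ≤ Real.exp (-β) := by
        have := Real.add_one_le_exp (-β)
        linarith
      calc (1-β)^n ≤ (Real.exp (-β))^n := pow_le_pow_left₀ (by linarith) h4 n
        _ = _ := by rw [← Real.exp_nat_mul]; congr 1; ring
    have h5 : (1-β)^n*(1+β^2*((n:ℝ)+1)^2) ≤ Real.exp (-(β*n)) * (8 * Real.exp (β*((n:ℝ)+1)/2)) := by
      have e : β^2*((n:ℝ)+1)^2 = (β*((n:ℝ)+1))^2 := by ring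
      rw [e]
      exact mul_le_mul h3 h2 (by positivity) (Real.exp_pos _).le
    have h6 : Real.exp (-(β*n)) * (8 * Real.exp (β*((n:ℝ)+1)/2))
        = 8 * (Real.exp (3*β/2) * Real.exp (-(β*(((n+1:ℕ):ℝ)+1)/2))) := by
      rw [← Real.exp_add]
      have : Real.exp (-(β*n)) * (8 * Real.exp (β*((n:ℝ)+1)/2))
          = 8 * (Real.exp (-(β*n)) * Real.exp (β*((n:ℝ)+1)/2)) := by ring
      rw [this, ← Real.exp_add]
      congr 2
      push_cast
      ring
    have h7 : Real.exp (3*β/2) ≤ 3 := by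
      calc Real.exp (3*β/2) ≤ Real.exp 1 := Real.exp_le_exp.2 (by linarith)
        _ ≤ 3 := by linarith [Real.exp_one_lt_d9]
    have h8 : 0 < Real.exp (-(β*(((n+1:ℕ):ℝ)+1)/2)) := Real.exp_pos _
    nlinarith

/-- the step inequality for a bias sequence with `β ≤ β' (1 + K/t)` -/
theorem key_step {β β' K t : ℝ} (h0 : 0 < β') (h1 : β' ≤ β) (hβ : β ≤ 1/2) (hK : 0 < K)
    (ht : 1 ≤ t) (hreg : β ≤ β'*(1+K/t)) (m : ℕ) :
    T β' (F β') m ≤ (1 - β'^3/50)*F β m + 120*Real.exp (-(t*β'^2/(16*K*(1+K)^2))) := by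
  by_cases hc : 8*((β-β')*β^2*((m:ℝ)+1)) ≤ β'^4
  · have := step_growth h0.le h1 hβ m hc
    have := Real.exp_pos (-(t*β'^2/(16*K*(1+K)^2)))
    linarith
  · push Not at hc
    have hm0 : (0:ℝ) ≤ m := Nat.cast_nonneg m
    have hl : 0 ≤ 1 - β'^3/50 := by
      have : β'^3 ≤ 1 := pow_le_one₀ h0.le (by linarith)
      linarith
    have hF := mul_nonneg hl (F_pos (h0.le.trans h1) hβ m).le
    have hKt : K/t ≤ K := div_le_self hK.le ht
    have hreg2 : β ≤ β'*(1+K) := hreg.trans (mul_le_mul_of_nonneg_left (by linarith) h0.le)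
    have hd : β - β' ≤ β'*K/t := by
      have : β'*(1+K/t) = β' + β'*K/t := by ring
      linarith
    have hd0 : 0 ≤ β - β' := by linarith
    have hsq : β^2 ≤ (β'*(1+K))^2 := pow_le_pow_left₀ (h0.le.trans h1) hreg2 2
    have h2 : (β-β')*β^2*((m:ℝ)+1) ≤ (β'*K/t)*(β'*(1+K))^2*((m:ℝ)+1) := by
      apply mul_le_mul_of_nonneg_right _ (by linarith)
      exact mul_le_mul hd hsq (sq_nonneg _) (by positivity)
    have h3 : β'^4 < 8*((β'*K/t)*(β'*(1+K))^2*((m:ℝ)+1)) := by linarith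
    have htpos : 0 < t := by linarith
    have h4 : t*β' < 8*K*(1+K)^2*((m:ℝ)+1) := by
      have e : 8*((β'*K/t)*(β'*(1+K))^2*((m:ℝ)+1)) = β'^3*(8*K*(1+K)^2*((m:ℝ)+1))/t := by ring
      rw [e, lt_div_iff₀ htpos] at h3
      have e2 : β'^4*t = β'^3*(t*β') := by ring
      rw [e2] at h3
      exact lt_of_mul_lt_mul_left h3 (by positivity)
    have h5 : t*β'^2/(16*K*(1+K)^2) ≤ β'*((m:ℝ)+1)/2 := by
      rw [div_le_iff₀ (by positivity)]
      have := mul_le_mul_of_nonneg_left h4.le h0.le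
      nlinarith
    have h6 := T_le_pred h0.le (h1.trans hβ) m
    have h7 := F_pred_le h0.le (h1.trans hβ) m
    have h8 : Real.exp (-(β'*((m:ℝ)+1)/2)) ≤ Real.exp (-(t*β'^2/(16*K*(1+K)^2))) :=
      Real.exp_le_exp.2 (by linarith)
    linarith

/-- data of a regular sequence -/
structure Reg (a : ℕ → ℝ) (K : ℝ) : Prop where
  eight : ∀ t, 1 ≤ t → 8 ≤ a t
  mono : ∀ s t, 1 ≤ s → s ≤ t → a s ≤ a t
  pos : 0 < K
  reg : ∀ t : ℕ, 1 ≤ t → a (t+1) ≤ (1+K/t)*a t
  lim : Tendsto (fun t : ℕ => a t^2 * Real.log t / t) atTop (𝓝 0)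

def Gf (a : ℕ → ℝ) (t : ℕ) : ℕ → ℝ := F (4 / a (max t 1))

def ep (a : ℕ → ℝ) (K : ℝ) (t : ℕ) : ℝ := 120*Real.exp (-(t*(4/a (t+1))^2/(16*K*(1+K)^2)))

theorem Reg.step {a : ℕ → ℝ} {K : ℝ} (h : Reg a K) (t : ℕ) (ht : 1 ≤ t) (m : ℕ) :
    T (4/a (t+1)) (Gf a (t+1)) m ≤ (1 - (4/a (t+1))^3/50) * Gf a t m + ep a K t := by
  have e1 : max t 1 = t := by omega
  have e2 : max (t+1) 1 = t+1 := by omega
  unfold Gf ep
  rw [e1, e2]
  have ha := h.eight t ht
  have ha1 := h.eight (t+1) (by omega)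
  have hm := h.mono t (t+1) ht (Nat.le_succ t)
  have hb := bias_mem ha
  have htr : (1:ℝ) ≤ t := by exact_mod_cast ht
  apply key_step (by positivity) (div_le_div_of_nonneg_left (by norm_num) (by linarith) hm) hb.2
    h.pos htr
  have hr := h.reg t ht
  rw [div_le_iff₀ (by linarith)]
  have e : 4 / a (t+1) * (1+K/t) * a t = 4 * ((1+K/t)*a t) / a (t+1) := by ring
  rw [e, le_div_iff₀ (by linarith)]
  linarith

theorem ep_nonneg (a : ℕ → ℝ) (K : ℝ) (t : ℕ) : 0 ≤ ep a K t := by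
  unfold ep; positivity

theorem Reg.ep_summable {a : ℕ → ℝ} {K : ℝ} (h : Reg a K) : Summable (ep a K) := by
  have hK := h.pos
  set Q : ℝ := 16*K*(1+K)^2 with hQ
  have hQ0 : 0 < Q := by positivity
  have hs : Summable fun n : ℕ => 120*(1/((n:ℝ)+1)^2) := by
    have h1 : Summable fun n : ℕ => 1/((n:ℝ))^2 := Real.summable_one_div_nat_pow.2 (by norm_num)
    have h2 := ((summable_nat_add_iff 1).2 h1).mul_left 120
    simpa using h2
  apply Summable.of_norm_bounded_eventually_nat hs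
  have h1 : ∀ᶠ t : ℕ in atTop, a t^2 * Real.log t / t < 4/Q :=
    h.lim.eventually (gt_mem_nhds (by positivity))
  have h2 := (tendsto_add_atTop_nat 1).eventually h1
  filter_upwards [h2, eventually_ge_atTop 1] with t ht ht1
  rw [Real.norm_eq_abs, abs_of_nonneg (ep_nonneg a K t)]
  unfold ep
  apply mul_le_mul_of_nonneg_left _ (by norm_num)
  rw [← hQ]
  have ha1 := h.eight (t+1) (by omega)
  have htr : (1:ℝ) ≤ t := by exact_mod_cast ht1
  have hpos : (0:ℝ) < (t:ℝ)+1 := by positivity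
  push_cast at ht
  rw [div_lt_div_iff₀ hpos hQ0] at ht
  have h3 : 2*Real.log ((t:ℝ)+1) ≤ t*(4/a (t+1))^2/Q := by
    have e : t*(4/a (t+1))^2/Q = 16*t/(a (t+1)^2*Q) := by
      field_simp; norm_num
    rw [e, le_div_iff₀ (by positivity)]
    nlinarith
  calc Real.exp (-(t*(4/a (t+1))^2/Q)) ≤ Real.exp (-(2*Real.log ((t:ℝ)+1))) :=
        Real.exp_le_exp.2 (by linarith)
    _ = 1/((t:ℝ)+1)^2 := by
      rw [Real.exp_neg, two_mul, Real.exp_add, Real.exp_log hpos]
      field_simp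

theorem Reg.Gf_mem {a : ℕ → ℝ} {K : ℝ} (h : Reg a K) (t : ℕ) :
    0 ≤ 4 / a (max t 1) ∧ 4 / a (max t 1) ≤ 1/2 := bias_mem (h.eight _ (by omega))

theorem Reg.Gf_pos {a : ℕ → ℝ} {K : ℝ} (h : Reg a K) (t m : ℕ) : 0 < Gf a t m :=
  F_pos (h.Gf_mem t).1 (h.Gf_mem t).2 m

theorem Reg.Gf_le {a : ℕ → ℝ} {K : ℝ} (h : Reg a K) (t m : ℕ) : Gf a t m ≤ 10 :=
  F_le_five (h.Gf_mem t).1 (h.Gf_mem t).2 m

theorem Reg.Gf_abs {a : ℕ → ℝ} {K : ℝ} (h : Reg a K) (t m : ℕ) : |Gf a t m| ≤ 10 := by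
  rw [abs_of_pos (h.Gf_pos t m)]; exact h.Gf_le t m

theorem Reg.Gf_ge {a : ℕ → ℝ} {K : ℝ} (h : Reg a K) (N t m : ℕ) (hm : m ≤ N) :
    2*(1/2)^N ≤ Gf a t m :=
  (two_pow_le_F (h.Gf_mem t).1 (h.Gf_mem t).2 N).trans
    (F_antitone (h.Gf_mem t).1 (h.Gf_mem t).2 hm)

theorem Reg.step' {a : ℕ → ℝ} {K : ℝ} (h : Reg a K) (t : ℕ) (ht : 1 ≤ t) (m : ℕ) :
    T (4/a (t+1)) (Gf a (t+1)) m ≤ Gf a t m + ep a K t := by
  have h1 := h.step t ht m
  have h2 : 0 ≤ (4/a (t+1))^3/50 * Gf a t m := by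
    have := h.Gf_pos t m
    have := (bias_mem (h.eight (t+1) (by omega))).1
    positivity
  linarith

theorem Reg.maximal {a : ℕ → ℝ} {K : ℝ} (h : Reg a K) {S : Set (ℕ → ℝ × ℝ)}
    (hSm : MeasurableSet S) (T₀ N : ℕ) (hT : 1 ≤ T₀)
    (hS : ∀ ω ω', (∀ i ≤ T₀, ω i = ω' i) → (ω ∈ S ↔ ω' ∈ S)) :
    (2*(1/2)^N) * noise.real (S ∩ {ω | ∃ r, idx (walk a ω (T₀+r)) ≤ N})
      ≤ ∫ ω, S.indicator (fun _ => (1:ℝ)) ω * Gf a T₀ (idx (walk a ω T₀)) ∂noise
        + noise.real S * ∑' j, ep a K (j+T₀) := by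
  have hsum : Summable fun j => ep a K (j+T₀) := (summable_nat_add_iff T₀).2 h.ep_summable
  apply maximal_lim a h.eight hSm T₀ N hS (Gf a) 10 (2*(1/2)^N) (by positivity) (ep a K)
    (∑' j, ep a K (j+T₀)) (fun t m => (h.Gf_pos t m).le) h.Gf_le (fun t m hm => h.Gf_ge N t m hm)
    (fun t ht m => h.step' t (by omega) m) (ep_nonneg a K)
  intro n
  have e : ∑ j ∈ Finset.range n, ep a K (T₀+j) = ∑ j ∈ Finset.range n, ep a K (j+T₀) :=
    Finset.sum_congr rfl fun j _ => by rw [Nat.add_comm]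
  rw [e]
  exact hsum.sum_le_tsum _ fun _ _ => ep_nonneg _ _ _

/-- **Almost sure divergence of regular sequences with `Σ a_t⁻³ = ∞`.** -/
theorem Reg.divergence {a : ℕ → ℝ} {K : ℝ} (h : Reg a K)
    (hns : ¬ Summable fun t => 1 / a t ^ 3) :
    ∀ᵐ ω ∂noise, Tendsto (fun t => (walk a ω t).2) atTop atTop := by
  apply divergence_of_idx
  intro N
  set e : ℕ → ℝ := fun n => ∫ ω, Gf a (n+1) (idx (walk a ω (n+1))) ∂noise with he
  have he0 : ∀ n, 0 ≤ e n := fun n => integral_nonneg fun ω => (h.Gf_pos _ _).le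
  have hrec : ∀ n, e (n+1) ≤ (1 - (4/a (n+2))^3/50) * e n + ep a K (n+1) := by
    intro n
    have ha := h.eight (n+2) (by omega)
    have hb := bias_mem ha
    simp only [he]
    rw [step_integral a (n+1) ha (Gf a (n+1+1)) 10 (h.Gf_abs _), ← integral_const_mul]
    have hc : ep a K (n+1) = ∫ _ω : ℕ → ℝ × ℝ, ep a K (n+1) ∂noise := by
      rw [integral_const, probReal_univ, smul_eq_mul, one_mul]
    rw [hc, ← integral_add]
    · apply integral_mono
      · apply integrable_idx a (n+1) (T (4 / a (n+1+1)) (Gf a (n+1+1))) 10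
        intro m
        have := T_nonneg_bound hb.1 hb.2 (fun m => (h.Gf_pos (n+1+1) m).le) (h.Gf_le (n+1+1)) m
        rw [abs_of_nonneg this.1]; exact this.2
      · exact ((integrable_idx a (n+1) (Gf a (n+1)) 10 (h.Gf_abs _)).const_mul _).add
          (integrable_const _)
      · intro ω
        exact h.step (n+1) (by omega) _
    · exact (integrable_idx a (n+1) (Gf a (n+1)) 10 (h.Gf_abs _)).const_mul _
    · exact integrable_const _
  have hlim : Tendsto e atTop (𝓝 0) := by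
    apply tendsto_zero_of_rec e (fun n => (4/a (n+2))^3/50) (fun n => ep a K (n+1)) he0
    · intro n
      have := (bias_mem (h.eight (n+2) (by omega))).1
      positivity
    · intro n; exact ep_nonneg _ _ _
    · exact (summable_nat_add_iff 1).2 h.ep_summable
    · intro hs
      apply hns
      apply (summable_nat_add_iff 2).1
      have h2 := hs.mul_left (50/64)
      refine h2.congr fun n => ?_
      rw [div_pow]
      ring
    · exact hrec
  have htail : Tendsto (fun n => ∑' j, ep a K (j+(n+1))) atTop (𝓝 0) :=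
    (tendsto_sum_nat_add (ep a K)).comp (tendsto_add_atTop_nat 1)
  have hbound : ∀ n, (2*(1/2)^N) * noise.real {ω | ∃ᶠ t in atTop, idx (walk a ω t) ≤ N}
      ≤ e n + ∑' j, ep a K (j+(n+1)) := by
    intro n
    have h1 := h.maximal (S := Set.univ) MeasurableSet.univ (n+1) N (by omega) (fun _ _ _ => by simp)
    simp only [Set.indicator_univ, one_mul, Set.univ_inter, probReal_univ] at h1
    refine le_trans ?_ h1
    apply mul_le_mul_of_nonneg_left _ (by positivity)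
    apply measureReal_mono _ (measure_ne_top _ _)
    intro ω hω
    obtain ⟨t, ht, ht2⟩ := (Filter.frequently_atTop.1 hω) (n+1)
    exact ⟨t-(n+1), by rw [Nat.add_sub_cancel' ht]; exact ht2⟩
  have hz : noise.real {ω | ∃ᶠ t in atTop, idx (walk a ω t) ≤ N} = 0 := by
    have h1 : (2*(1/2)^N) * noise.real {ω | ∃ᶠ t in atTop, idx (walk a ω t) ≤ N} ≤ 0 := by
      have := hlim.add htail
      rw [add_zero] at this
      exact ge_of_tendsto' this hbound
    have h2 : 0 ≤ noise.real {ω | ∃ᶠ t in atTop, idx (walk a ω t) ≤ N} := measureReal_nonneg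
    have h3 : (0:ℝ) < 2*(1/2)^N := by positivity
    nlinarith
  have hz2 : noise {ω | ∃ᶠ t in atTop, idx (walk a ω t) ≤ N} = 0 := by
    rwa [measureReal_eq_zero_iff] at hz
  have hz3 : ∀ᵐ ω ∂noise, ¬ ∃ᶠ t in atTop, idx (walk a ω t) ≤ N := by
    rw [ae_iff]
    simp only [not_not]
    exact hz2
  filter_upwards [hz3] with ω hω
  rw [not_frequently] at hω
  filter_upwards [hω] with t ht
  omega

end

end Pool.Agent.Y774.ST
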