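import Mathlib
import Pool.Agent.Y774.ST.DivB
import Pool.Agent.Y774.ST.Stm

/-!
Random walk on stairs: positive probability of divergence of regular sequences, and powers of `t`.
-/

set_option autoImplicit false

namespace Pool.Agent.Y774.ST

open MeasureTheory ProbabilityTheory Filter Topology
open Pool.Agent.Results.MP_1da119_pr.StairsDivergence
open Pool.Agent.H528R3.Stairs (A B T T_eq T_mono T_const A_nonneg A_le B_nonneg B_le)

noncomputable section

theorem A_pos (m : ℕ) : 0 < A m := by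
  unfold A; split_ifs <;> positivity

theorem T_single {b : ℝ} (hb : 0 ≤ b) (hb2 : b ≤ 1/2) (t m : ℕ) :
    (1/2*A t) * (if m = t then (1:ℝ) else 0)
      ≤ T b (fun k => if k = t+1 then (1:ℝ) else 0) m := by
  by_cases h : m = t
  · subst h
    unfold T
    simp only [if_true]
    have h1 : ¬ (m - 1 = m + 1) := by omega
    have h2 : ¬ (m = m + 1) := by omega
    rw [if_neg h1, if_neg h2]
    nlinarith [A_pos m]
  · rw [if_neg h, mul_zero]
    have := (T_nonneg_bound hb hb2 (G := fun k => if k = t+1 then (1:ℝ) else 0) (C := 1)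
      (fun k => by split_ifs <;> norm_num)
      (fun k => by split_ifs <;> norm_num) m).1
    exact this

theorem top_pos (a : ℕ → ℝ) (ha : ∀ t, 1 ≤ t → 8 ≤ a t) (t : ℕ) :
    0 < ∫ ω, (if idx (walk a ω t) = t then (1:ℝ) else 0) ∂noise := by
  induction t with
  | zero =>
    have : ∀ ω, (if idx (walk a ω 0) = 0 then (1:ℝ) else 0) = 1 := fun ω => by
      rw [if_pos]; rfl
    simp [this]
  | succ t ih =>
    have hb := bias_mem (ha (t+1) (by omega))
    have habs : ∀ m : ℕ, |(if m = t+1 then (1:ℝ) else 0)| ≤ 1 := fun m => by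
      split_ifs <;> simp
    have habs' : ∀ m : ℕ, |(if m = t then (1:ℝ) else 0)| ≤ 1 := fun m => by
      split_ifs <;> simp
    have e := step_integral a t (ha (t+1) (by omega)) (fun k => if k = t+1 then (1:ℝ) else 0) 1 habs
    rw [e]
    have hA := A_pos t
    calc (0:ℝ) < (1/2*A t) * ∫ ω, (if idx (walk a ω t) = t then (1:ℝ) else 0) ∂noise := by positivity
      _ = ∫ ω, (1/2*A t) * (if idx (walk a ω t) = t then (1:ℝ) else 0) ∂noise :=
          (integral_const_mul _ _).symm
      _ ≤ _ := by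
          apply integral_mono
          · exact (integrable_idx a t (fun m => if m = t then (1:ℝ) else 0) 1 habs').const_mul _
          · apply integrable_idx a t (T (4 / a (t+1)) (fun k => if k = t+1 then (1:ℝ) else 0)) 1
            intro m
            have := T_nonneg_bound hb.1 hb.2 (G := fun k => if k = t+1 then (1:ℝ) else 0) (C := 1)
              (fun k => by split_ifs <;> norm_num)
              (fun k => by split_ifs <;> norm_num) m
            rw [abs_of_nonneg this.1]; exact this.2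
          · intro ω
            exact T_single hb.1 hb.2 t _

theorem top_set_pos (a : ℕ → ℝ) (ha : ∀ t, 1 ≤ t → 8 ≤ a t) (t : ℕ) :
    0 < noise.real {ω | idx (walk a ω t) = t} := by
  have h := top_pos a ha t
  have hm : MeasurableSet {ω | idx (walk a ω t) = t} :=
    (idx_measurable a t) (measurableSet_singleton t)
  have e : ∫ ω, (if idx (walk a ω t) = t then (1:ℝ) else 0) ∂noise
      = noise.real {ω | idx (walk a ω t) = t} := by
    rw [← integral_indicator_one hm]
    apply integral_congr_ae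
    refine Eventually.of_forall fun ω => ?_
    by_cases h : idx (walk a ω t) = t
    · simp only [if_pos h]
      exact (Set.indicator_of_mem (show ω ∈ {ω | idx (walk a ω t) = t} from h)
        (1 : (ℕ → ℝ × ℝ) → ℝ)).symm
    · simp only [if_neg h]
      exact (Set.indicator_of_notMem (show ω ∉ {ω | idx (walk a ω t) = t} from h)
        (1 : (ℕ → ℝ × ℝ) → ℝ)).symm
  rwa [e] at h

theorem Reg.far_small {a : ℕ → ℝ} {K : ℝ} (h : Reg a K) :
    ∀ᶠ t : ℕ in atTop, Gf a t t ≤ 1/2 := by
  have h1 : ∀ᶠ t : ℕ in atTop, a t^2 * Real.log t / t < 1 := h.lim.eventually (gt_mem_nhds one_pos)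
  have h2 : ∀ᶠ t : ℕ in atTop, 20 ≤ Real.log t :=
    (Real.tendsto_log_atTop.comp tendsto_natCast_atTop_atTop).eventually_ge_atTop 20
  filter_upwards [h1, h2, eventually_ge_atTop 1] with t g1 g2 g3
  have ha := h.eight t g3
  have hb := bias_mem ha
  have htr : (0:ℝ) < t := by exact_mod_cast g3
  unfold Gf
  rw [max_eq_left g3]
  have h3 := F_pred_le hb.1 hb.2 (t+1)
  simp only [Nat.add_sub_cancel] at h3
  rw [div_lt_one htr] at g1
  have h4 : 300 ≤ 4 / a t * ((((t+1:ℕ):ℝ))+1)/2 := by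
    have e : 4 / a t * ((((t+1:ℕ):ℝ))+1)/2 = 2*((t:ℝ)+2)/a t := by push_cast; ring
    rw [e, le_div_iff₀ (by linarith)]
    nlinarith
  have h5 : Real.exp (-(4 / a t * ((((t+1:ℕ):ℝ))+1)/2)) ≤ 1/301 := by
    rw [Real.exp_neg]
    rw [inv_eq_one_div]
    apply one_div_le_one_div_of_le (by norm_num)
    have := Real.add_one_le_exp (4 / a t * ((((t+1:ℕ):ℝ))+1)/2)
    linarith
  linarith

theorem Reg.pos_prob {a : ℕ → ℝ} {K : ℝ} (h : Reg a K) (HW : StmW) :
    0 < noise {ω | Tendsto (fun t => (walk a ω t).2) atTop atTop} := by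
  by_cases hs : Summable fun t => 1 / a t ^ 3
  swap
  · have h1 := h.divergence hs
    have h2 : noise {ω | Tendsto (fun t => (walk a ω t).2) atTop atTop}ᶜ = 0 := by
      rw [ae_iff] at h1
      exact h1
    rw [pos_iff_ne_zero]
    intro h3
    have h4 : noise (Set.univ : Set (ℕ → ℝ × ℝ)) = 0 := by
      rw [← Set.union_compl_self {ω | Tendsto (fun t => (walk a ω t).2) atTop atTop}]
      exact measure_union_null h3 h2
    rw [measure_univ] at h4
    exact one_ne_zero h4
  -- `a` is eventually at least `9`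
  have h9 : ∀ᶠ t : ℕ in atTop, 9 ≤ a t := by
    have h1 := hs.tendsto_atTop_zero
    have h2 : ∀ᶠ t : ℕ in atTop, 1 / a t ^ 3 < 1/9^3 := h1.eventually (gt_mem_nhds (by norm_num))
    filter_upwards [h2, eventually_ge_atTop 1] with t g1 g2
    have ha := h.eight t g2
    by_contra hc
    push Not at hc
    have h3 : a t^3 ≤ 9^3 := pow_le_pow_left₀ (by linarith) hc.le 3
    have h4 : 1/9^3 ≤ 1/a t^3 := one_div_le_one_div_of_le (by positivity) h3
    linarith
  have htail : ∀ᶠ t : ℕ in atTop, ∑' j, ep a K (j+t) < 1/2 :=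
    (tendsto_sum_nat_add (ep a K)).eventually (gt_mem_nhds (by norm_num))
  obtain ⟨T₀, hT0⟩ := eventually_atTop.1 (h9.and (htail.and (h.far_small.and (eventually_ge_atTop 1))))
  have hT1 : 1 ≤ T₀ := (hT0 T₀ le_rfl).2.2.2
  have hfar := (hT0 T₀ le_rfl).2.2.1
  have htl := (hT0 T₀ le_rfl).2.1
  set S : Set (ℕ → ℝ × ℝ) := {ω | idx (walk a ω T₀) = T₀} with hS
  have hSm : MeasurableSet S := (idx_measurable a T₀) (measurableSet_singleton T₀)
  have hSpos : 0 < noise.real S := top_set_pos a h.eight T₀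
  have hmax := h.maximal hSm T₀ 0 hT1 (fun ω ω' hω => by
    have := walk_congr a ω ω' T₀ hω
    simp only [hS, Set.mem_ofPred_eq, this])
  have hI : ∫ ω, S.indicator (fun _ => (1:ℝ)) ω * Gf a T₀ (idx (walk a ω T₀)) ∂noise
      = noise.real S * Gf a T₀ T₀ := by
    have e : ∀ ω, S.indicator (fun _ => (1:ℝ)) ω * Gf a T₀ (idx (walk a ω T₀))
        = S.indicator (fun _ => (1:ℝ)) ω * Gf a T₀ T₀ := by
      intro ω
      by_cases hω : ω ∈ S
      · have : idx (walk a ω T₀) = T₀ := hω
        rw [this]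
      · rw [ind0 hω, zero_mul, zero_mul]
    simp only [e]
    rw [integral_mul_const]
    congr 1
    exact integral_indicator_one hSm
  rw [hI] at hmax
  simp only [pow_zero, mul_one] at hmax
  have hle : noise.real (S ∩ {ω | ∃ r, idx (walk a ω (T₀+r)) ≤ 0}) ≤ noise.real S/2 := by
    nlinarith
  have hsub : S ⊆ (S ∩ {ω | ∃ r, idx (walk a ω (T₀+r)) ≤ 0})
      ∪ {ω | ∀ r, 0 < idx (walk a ω (T₀+r))} := by
    intro ω hω
    by_cases hc : ∃ r, idx (walk a ω (T₀+r)) ≤ 0
    · exact Or.inl ⟨hω, hc⟩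
    · push Not at hc
      exact Or.inr hc
  have h1 : noise.real S ≤ noise.real (S ∩ {ω | ∃ r, idx (walk a ω (T₀+r)) ≤ 0})
      + noise.real {ω | ∀ r, 0 < idx (walk a ω (T₀+r))} :=
    (measureReal_mono hsub (measure_ne_top _ _)).trans (measureReal_union_le _ _)
  have h2 : 0 < noise.real {ω | ∀ r, 0 < idx (walk a ω (T₀+r))} := by linarith
  have h3 : noise {ω | ∀ r, 0 < idx (walk a ω (T₀+r))}
      ≤ noise {ω | Tendsto (fun t => (walk a ω t).2) atTop atTop} := by
    apply measure_mono_ae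
    filter_upwards [HW a h.eight T₀ fun t ht => (hT0 t ht).1] with ω hω hω2
    exact hω hω2
  refine lt_of_lt_of_le ?_ h3
  rw [measureReal_def] at h2
  exact (ENNReal.toReal_pos_iff.1 h2).1

/-! ### powers of `t` -/

theorem rpow_ge_one {t : ℕ} (ht : 1 ≤ t) {γ : ℝ} (hγ : 0 ≤ γ) : 1 ≤ (t:ℝ)^γ :=
  Real.one_le_rpow (by exact_mod_cast ht) hγ

theorem pow_reg {c γ : ℝ} (hc : 8 ≤ c) (hγ : 0 < γ) (hγ2 : γ < 1/2) :
    Reg (fun t : ℕ => c * (t:ℝ)^γ) 1 where
  eight t ht := by
    have := rpow_ge_one ht hγ.le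
    nlinarith
  mono s t hs hst := by
    apply mul_le_mul_of_nonneg_left _ (by linarith)
    exact Real.rpow_le_rpow (Nat.cast_nonneg _) (by exact_mod_cast hst) hγ.le
  pos := one_pos
  reg t ht := by
    have htr : (0:ℝ) < t := by exact_mod_cast ht
    have h1 : (((t+1:ℕ):ℝ))^γ ≤ (1+1/(t:ℝ))*(t:ℝ)^γ := by
      have e : (((t+1:ℕ):ℝ)) = (1+1/(t:ℝ))*t := by push_cast; field_simp
      rw [e, Real.mul_rpow (by positivity) htr.le]
      apply mul_le_mul_of_nonneg_right _ (by positivity)
      have h2 : (1:ℝ) ≤ 1+1/(t:ℝ) := by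
        have : 0 ≤ 1/(t:ℝ) := by positivity
        linarith
      calc (1+1/(t:ℝ))^γ ≤ (1+1/(t:ℝ))^(1:ℝ) := Real.rpow_le_rpow_of_exponent_le h2 (by linarith)
        _ = _ := Real.rpow_one _
    have := mul_le_mul_of_nonneg_left h1 (by linarith : 0 ≤ c)
    linarith
  lim := by
    have h1 : Tendsto (fun x : ℝ => Real.log x / x^(1-2*γ)) atTop (𝓝 0) :=
      (isLittleO_log_rpow_atTop (by linarith)).tendsto_div_nhds_zero
    have h2 := (h1.comp tendsto_natCast_atTop_atTop).const_mul (c^2)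
    rw [mul_zero] at h2
    refine h2.congr' ?_
    filter_upwards [eventually_ge_atTop 1] with t ht
    have htr : (0:ℝ) < t := by exact_mod_cast ht
    simp only [Function.comp_apply]
    have e1 : (t:ℝ)^(1-2*γ) = t / ((t:ℝ)^γ)^2 := by
      rw [Real.rpow_sub htr, Real.rpow_one]
      congr 1
      rw [mul_comm, Real.rpow_mul htr.le, ← Real.rpow_natCast]
      norm_num
    rw [e1]
    have : (t:ℝ)^γ ≠ 0 := (Real.rpow_pos_of_pos htr γ).ne'
    field_simp

theorem pow_summable {c γ : ℝ} (hc : 8 ≤ c) :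
    (Summable fun t : ℕ => 1 / (c * (t:ℝ)^γ)^3) ↔ 1/3 < γ := by
  have e : (fun t : ℕ => 1 / (c * (t:ℝ)^γ)^3) = fun t : ℕ => (1/c^3) * (t:ℝ)^(-(3*γ)) := by
    ext t
    have h1 : (t:ℝ)^(-(3*γ)) = 1/((t:ℝ)^γ)^3 := by
      rw [Real.rpow_neg (Nat.cast_nonneg t), mul_comm, Real.rpow_mul (Nat.cast_nonneg t),
        one_div]
      congr 1
      exact_mod_cast Real.rpow_natCast _ 3
    rw [h1, mul_pow]
    have : c^3 ≠ 0 := by positivity
    rw [one_div, one_div, one_div, mul_inv]
  rw [e, summable_mul_left_iff (by positivity), Real.summable_nat_rpow]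
  constructor <;> intro h <;> linarith

end

end Pool.Agent.Y774.ST
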