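import Mathlib
import Pool.Agent.Y774.ST.Prob

/-!
The walk exactly as printed in the problem file: at the sites `(j+1,j)` the BACKWARD neighbour is
proposed with probability `1/2 + 4/a`.  The target `π` is invariant for every step, so this walk
never diverges.
-/

set_option autoImplicit false

namespace Pool.Agent.Y774.ST

open MeasureTheory ProbabilityTheory Filter Topology
open Pool.Agent.Results.MP_1da119_pr.StairsDivergence
open Pool.Agent.H528R3.Stairs (A B T s s_pos T_eq T_mono T_const A_nonneg A_le B_nonneg B_le)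

noncomputable section

/-- One step of the walk as printed: at `(j,j)` the forward neighbour is proposed with probability
`1/2 + 4/a`, at `(j+1,j)` the backward neighbour is proposed with probability `1/2 + 4/a`. -/
def stepPrinted (a : ℝ) (x : ℕ × ℕ) (u : ℝ × ℝ) : ℕ × ℕ :=
  let y := if x.1 = x.2 then (if u.1 < 1/2 + 4/a then forward x else backward x)
    else (if u.1 < 1/2 + 4/a then backward x else forward x)
  if u.2 < accept x y then y else x

/-- The walk as printed, started at `(1,1)`. -/
def walkPrinted (a : ℕ → ℝ) (ω : ℕ → ℝ × ℝ) : ℕ → ℕ × ℕ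
  | 0 => (1, 1)
  | t+1 => stepPrinted (a (t+1)) (walkPrinted a ω t) (ω (t+1))

theorem stepP_measurable (a : ℝ) :
    Measurable (fun p : (ℕ × ℕ) × (ℝ × ℝ) => stepPrinted a p.1 p.2) := by
  apply measurable_from_prod_countable_right
  intro x
  unfold stepPrinted
  simp only
  have h1 : MeasurableSet {u : ℝ × ℝ | u.1 < 1/2 + 4/a} := measurableSet_lt measurable_fst measurable_const
  have h2 : ∀ c : ℝ, MeasurableSet {u : ℝ × ℝ | u.2 < c} := fun c =>
    measurableSet_lt measurable_snd measurable_const
  have key : ∀ y z : ℕ × ℕ, Measurable (fun u : ℝ × ℝ =>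
      if u.2 < accept x (if u.1 < 1/2 + 4/a then y else z)
      then (if u.1 < 1/2 + 4/a then y else z) else x) := by
    intro y z
    have e : (fun u : ℝ × ℝ => if u.2 < accept x (if u.1 < 1/2 + 4/a then y else z)
        then (if u.1 < 1/2 + 4/a then y else z) else x)
        = fun u => if u.1 < 1/2 + 4/a then (if u.2 < accept x y then y else x)
          else (if u.2 < accept x z then z else x) := by
      ext u : 1
      by_cases h : u.1 < 1/2 + 4/a
      · simp only [if_pos h]
      · simp only [if_neg h]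
    rw [e]
    exact Measurable.ite h1 (Measurable.ite (h2 _) measurable_const measurable_const)
      (Measurable.ite (h2 _) measurable_const measurable_const)
  by_cases h : x.1 = x.2
  · simp only [if_pos h]; exact key _ _
  · simp only [if_neg h]; exact key _ _

theorem walkP_measurable (a : ℕ → ℝ) (t : ℕ) : Measurable (fun ω => walkPrinted a ω t) := by
  induction t with
  | zero => exact measurable_const
  | succ t ih =>
    exact (stepP_measurable (a (t+1))).comp (ih.prodMk (measurable_pi_apply (t+1)))

theorem walkP_congr (a : ℕ → ℝ) (ω ω' : ℕ → ℝ × ℝ) (t : ℕ) (h : ∀ i ≤ t, ω i = ω' i) :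
    walkPrinted a ω t = walkPrinted a ω' t := by
  induction t with
  | zero => rfl
  | succ t ih =>
    show stepPrinted _ (walkPrinted a ω t) (ω (t+1)) = stepPrinted _ (walkPrinted a ω' t) (ω' (t+1))
    rw [ih fun i hi => h i (by omega), h (t+1) le_rfl]

theorem integral_stepP (a : ℕ → ℝ) (t : ℕ) (g : ℕ × ℕ → ℝ) (C : ℝ) (hg : ∀ x, |g x| ≤ C) :
    ∫ ω, g (walkPrinted a ω (t+1)) ∂noise
      = ∫ ω, (∫ u, g (stepPrinted (a (t+1)) (walkPrinted a ω t) u) ∂unif2) ∂noise := by
  set Y : (ℕ → ℝ × ℝ) → ((Finset.range (t+1)) → ℝ × ℝ) := fun ω j => ω j with hY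
  have hYm : Measurable Y := measurable_pi_lambda _ fun j => measurable_pi_apply _
  have h1 : iIndepFun (fun (i : ℕ) (ω : ℕ → ℝ × ℝ) => ω i) noise :=
    iIndepFun_infinitePi (P := fun _ => unif2) (X := fun _ x => x) (fun _ => measurable_id)
  have h2 := h1.indepFun_finset (Finset.range (t+1)) {t+1} (by simp) (fun i => measurable_pi_apply i)
  have hψ : Measurable (fun z : ({t+1} : Finset ℕ) → ℝ × ℝ =>
      z ⟨t+1, Finset.mem_singleton_self (t+1)⟩) := measurable_pi_apply _
  have h3 : IndepFun Y (fun ω : ℕ → ℝ × ℝ => ω (t+1)) noise := h2.comp measurable_id hψ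
  have hmap : noise.map (fun ω : ℕ → ℝ × ℝ => (Y ω, ω (t+1))) = (noise.map Y).prod unif2 := by
    have h := (indepFun_iff_map_prod_eq_prod_map_map hYm.aemeasurable
      (measurable_pi_apply (t+1)).aemeasurable).1 h3
    rw [h]
    congr 1
    exact (measurePreserving_eval_infinitePi (fun _ : ℕ => unif2) (t+1)).map_eq
  have hprob : IsProbabilityMeasure (noise.map Y) := Measure.isProbabilityMeasure_map hYm.aemeasurable
  set H : ((Finset.range (t+1)) → ℝ × ℝ) × (ℝ × ℝ) → ℝ := fun p =>
    g (stepPrinted (a (t+1)) (walkPrinted a (ext t p.1) t) p.2) with hH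
  have hHm : Measurable H := by
    apply (measurable_of_countable g).comp
    exact (stepP_measurable (a (t+1))).comp
        ((((walkP_measurable a t).comp (ext_measurable t)).comp measurable_fst).prodMk measurable_snd)
  have e1 : ∀ ω, walkPrinted a (ext t (Y ω)) t = walkPrinted a ω t := fun ω =>
    walkP_congr a _ _ t fun i hi => ext_eq t ω i hi
  calc ∫ ω, g (walkPrinted a ω (t+1)) ∂noise
      = ∫ ω, H (Y ω, ω (t+1)) ∂noise := by
        apply integral_congr_ae
        refine Eventually.of_forall fun ω => ?_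
        simp only [hH, e1]
        rfl
    _ = ∫ p, H p ∂(noise.map (fun ω : ℕ → ℝ × ℝ => (Y ω, ω (t+1)))) := by
        rw [integral_map]
        · exact (hYm.prodMk (measurable_pi_apply (t+1))).aemeasurable
        · exact hHm.aestronglyMeasurable
    _ = ∫ y, ∫ u, H (y, u) ∂unif2 ∂(noise.map Y) := by
        rw [hmap, integral_prod]
        refine Integrable.of_bound hHm.aestronglyMeasurable C (Eventually.of_forall fun p => ?_)
        simp only [hH, Real.norm_eq_abs]
        exact hg _
    _ = ∫ ω, (∫ u, H (Y ω, u) ∂unif2) ∂noise := by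
        rw [integral_map hYm.aemeasurable]
        exact (hHm.stronglyMeasurable.integral_prod_right').aestronglyMeasurable
    _ = _ := by
        apply integral_congr_ae
        refine Eventually.of_forall fun ω => ?_
        simp only [hH, e1]

/-- the one-step integral for a general pair of proposals -/
theorem one_step_gen (a : ℝ) (ha : 8 ≤ a) (x y z : ℕ × ℕ) (g : ℕ × ℕ → ℝ) :
    ∫ u : ℝ × ℝ, g (if u.2 < accept x (if u.1 < 1/2 + 4/a then y else z)
        then (if u.1 < 1/2 + 4/a then y else z) else x) ∂unif2 =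
      (1/2+4/a) * (accept x y * g y + (1 - accept x y) * g x)
      + (1/2-4/a) * (accept x z * g z + (1 - accept x z) * g x) := by
  have h4 := bias_mem ha
  have h1 : MeasurableSet {u : ℝ × ℝ | u.1 < 1/2 + 4/a} := measurableSet_lt measurable_fst measurable_const
  have h2 : ∀ c : ℝ, MeasurableSet {u : ℝ × ℝ | u.2 < c} := fun c =>
    measurableSet_lt measurable_snd measurable_const
  have hm : Measurable (fun u : ℝ × ℝ => g (if u.2 < accept x (if u.1 < 1/2 + 4/a then y else z)
        then (if u.1 < 1/2 + 4/a then y else z) else x)) := by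
    apply (measurable_of_countable g).comp
    have e : (fun u : ℝ × ℝ => if u.2 < accept x (if u.1 < 1/2 + 4/a then y else z)
        then (if u.1 < 1/2 + 4/a then y else z) else x)
        = fun u => if u.1 < 1/2 + 4/a then (if u.2 < accept x y then y else x)
          else (if u.2 < accept x z then z else x) := by
      ext u : 1
      by_cases h : u.1 < 1/2 + 4/a
      · simp only [if_pos h]
      · simp only [if_neg h]
    rw [e]
    exact Measurable.ite h1 (Measurable.ite (h2 _) measurable_const measurable_const)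
      (Measurable.ite (h2 _) measurable_const measurable_const)
  have hbd : ∀ u : ℝ × ℝ, |g (if u.2 < accept x (if u.1 < 1/2 + 4/a then y else z)
        then (if u.1 < 1/2 + 4/a then y else z) else x)| ≤ |g y| + |g z| + |g x| := by
    intro u
    have := abs_nonneg (g y)
    have := abs_nonneg (g z)
    have := abs_nonneg (g x)
    split_ifs <;> linarith
  unfold unif2
  rw [integral_prod]
  · have inner : ∀ r : ℝ, ∫ v in Set.Icc (0:ℝ) 1,
          g (if (r, v).2 < accept x (if (r, v).1 < 1/2 + 4/a then y else z)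
            then (if (r, v).1 < 1/2 + 4/a then y else z) else x) =
        if r < 1/2 + 4/a then (accept x y * g y + (1 - accept x y) * g x)
        else (accept x z * g z + (1 - accept x z) * g x) := by
      intro r
      by_cases h : r < 1/2 + 4/a
      · rw [if_pos h]
        rw [← unif_integral _ (accept_nonneg x y) (accept_le_one x y)]
        apply integral_congr_ae
        refine Eventually.of_forall fun v => ?_
        simp only [if_pos h]
        split_ifs <;> rfl
      · rw [if_neg h]
        rw [← unif_integral _ (accept_nonneg x z) (accept_le_one x z)]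
        apply integral_congr_ae
        refine Eventually.of_forall fun v => ?_
        simp only [if_neg h]
        split_ifs <;> rfl
    simp_rw [inner]
    rw [unif_integral _ (by linarith [h4.1]) (by linarith [h4.2])]
    ring
  · exact Integrable.of_bound hm.aestronglyMeasurable _ (Eventually.of_forall hbd)

/-- the one-step operator of the printed walk in terms of the index -/
def TP (b : ℝ) (G : ℕ → ℝ) (m : ℕ) : ℝ := if Even m then T b G m else T (-b) G m

theorem one_stepP_idx (a : ℝ) (ha : 8 ≤ a) (x : ℕ × ℕ) (hx : x ∈ stair) (G : ℕ → ℝ) :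
    ∫ u, G (idx (stepPrinted a x u)) ∂unif2 = TP (4/a) G (idx x) := by
  have hfw : ∀ c : ℝ, 8 ≤ c → (1/2+4/c) * (accept x (forward x) * G (idx (forward x))
        + (1 - accept x (forward x)) * G (idx x))
      + (1/2-4/c) * (accept x (backward x) * G (idx (backward x))
        + (1 - accept x (backward x)) * G (idx x)) = T (4/c) G (idx x) := by
    intro c hc
    rw [← one_step_idx c hc x hx G, one_step c hc x (fun y => G (idx y))]
  have h8 := hfw 8 le_rfl
  have h16 := hfw 16 (by norm_num)
  obtain ⟨h1, h2, h3⟩ := hx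
  by_cases h : x.1 = x.2
  · have hev : Even (idx x) := by
      unfold idx; exact ⟨x.1 - 1, by omega⟩
    unfold TP
    rw [if_pos hev, ← hfw a ha]
    have := one_step_gen a ha x (forward x) (backward x) (fun y => G (idx y))
    rw [← this]
    simp only [stepPrinted, if_pos h]
  · have hev : ¬ Even (idx x) := by
      rw [Nat.not_even_iff_odd]
      unfold idx; exact ⟨x.2 - 1, by omega⟩
    unfold TP
    rw [if_neg hev]
    have := one_step_gen a ha x (backward x) (forward x) (fun y => G (idx y))
    have e : (fun u => G (idx (stepPrinted a x u))) = fun u : ℝ × ℝ =>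
        G (idx (if u.2 < accept x (if u.1 < 1/2 + 4/a then backward x else forward x)
        then (if u.1 < 1/2 + 4/a then backward x else forward x) else x)) := by
      ext u
      simp only [stepPrinted, if_neg h]
    rw [e, this]
    rw [T_eq] at h8 h16 ⊢
    norm_num at h8 h16
    generalize accept x (forward x) * G (idx (forward x))
        + (1 - accept x (forward x)) * G (idx x) = U at *
    generalize accept x (backward x) * G (idx (backward x))
        + (1 - accept x (backward x)) * G (idx x) = V at *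
    have hV : V = 4*(3/4*U+1/4*V) - 3*U := by ring
    rw [h16, h8] at hV
    rw [hV, h8]
    ring

theorem stepP_mem (a : ℝ) (x : ℕ × ℕ) (hx : x ∈ stair) (u : ℝ × ℝ) (hu : 0 ≤ u.2) :
    stepPrinted a x u ∈ stair := by
  unfold stepPrinted
  simp only
  generalize (if x.1 = x.2 then (if u.1 < 1/2 + 4/a then forward x else backward x)
    else (if u.1 < 1/2 + 4/a then backward x else forward x)) = y
  by_cases h : u.2 < accept x y
  · rw [if_pos h]
    by_contra hy
    rw [accept_eq, weight_of_notMem hy] at h
    simp at h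
    linarith
  · rw [if_neg h]; exact hx

theorem walkP_mem (a : ℕ → ℝ) (ω : ℕ → ℝ × ℝ) (hω : ∀ i, 0 ≤ (ω i).2) (t : ℕ) :
    walkPrinted a ω t ∈ stair := by
  induction t with
  | zero => exact ⟨le_rfl, le_rfl, Or.inl rfl⟩
  | succ t ih => exact stepP_mem _ _ ih _ (hω _)

/-! ### the invariant measure -/

/-- the invariant measure -/
def pw (m : ℕ) : ℝ := 1/((m/2+1:ℕ):ℝ)^2

theorem pw_pos (m : ℕ) : 0 < pw m := by unfold pw; positivity

theorem pw_summable : Summable pw := by
  have h : Summable fun m : ℕ => 4*(1/((m:ℝ)+1)^2) := by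
    have h1 : Summable fun n : ℕ => 1/((n:ℝ))^2 := Real.summable_one_div_nat_pow.2 (by norm_num)
    have h2 := ((summable_nat_add_iff 1).2 h1).mul_left 4
    simpa using h2
  refine Summable.of_nonneg_of_le (fun m => (pw_pos m).le) (fun m => ?_) h
  unfold pw
  have h1 : ((m:ℝ)+1)/2 ≤ ((m/2+1:ℕ):ℝ) := by
    have : m + 1 ≤ 2*(m/2+1) := by omega
    have h2 : ((m+1:ℕ):ℝ) ≤ ((2*(m/2+1):ℕ):ℝ) := by exact_mod_cast this
    push_cast at h2 ⊢
    linarith
  have h3 : (((m:ℝ)+1)/2)^2 ≤ ((m/2+1:ℕ):ℝ)^2 := pow_le_pow_left₀ (by positivity) h1 2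
  calc 1/((m/2+1:ℕ):ℝ)^2 ≤ 1/(((m:ℝ)+1)/2)^2 := one_div_le_one_div_of_le (by positivity) h3
    _ = 4*(1/((m:ℝ)+1)^2) := by field_simp; norm_num

/-- conductance of the edge `m — m+1` -/
def cd (b : ℝ) (m : ℕ) : ℝ := (if Even m then 1/2+b else 1/2-b)/s m

theorem pw_A (m : ℕ) : pw m * A m = 1/s m := by
  unfold pw A s
  by_cases h : Even m
  · rw [if_pos h, if_pos h]; field_simp
  · rw [if_neg h, if_neg h]; field_simp

theorem pw_B (m : ℕ) : pw (m+1) * B (m+1) = 1/s m := by
  unfold pw B s
  rw [if_neg (by omega)]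
  by_cases h : Even m
  · have h' : ¬ Even (m+1) := by rw [Nat.not_even_iff_odd]; exact h.add_one
    rw [if_pos h, if_neg h']
    obtain ⟨j, rfl⟩ := h
    have e1 : (j+j+1)/2 = j := by omega
    have e2 : (j+j)/2 = j := by omega
    rw [e1, e2]; field_simp
  · have h' : Even (m+1) := by
      rw [Nat.not_even_iff_odd] at h; exact h.add_one
    rw [if_neg h, if_pos h']
    rw [Nat.not_even_iff_odd] at h
    obtain ⟨j, rfl⟩ := h
    have e1 : (2*j+1+1)/2 = j+1 := by omega
    have e2 : (2*j+1)/2 = j := by omega
    rw [e1, e2]; push_cast; field_simp; ring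

theorem TP_flux (b : ℝ) (G : ℕ → ℝ) (M : ℕ) :
    ∑ m ∈ Finset.range (M+1), pw m * (TP b G m - G m) = cd b M * (G (M+1) - G M) := by
  induction M with
  | zero =>
    have hA := pw_A 0
    have hB0 : B 0 = 0 := by simp [B]
    simp only [zero_add, Finset.range_one, Finset.sum_singleton]
    unfold TP cd
    rw [if_pos (by simp), if_pos (by simp), T_eq, hB0]
    have : pw 0 * (G 0 + (1/2+b)*A 0*(G (0+1) - G 0) + (1/2-b)*0*(G (0-1) - G 0) - G 0)
        = (1/2+b)*(pw 0 * A 0)*(G 1 - G 0) := by ring
    rw [this, hA]; ring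
  | succ M ih =>
    rw [Finset.sum_range_succ, ih]
    have hA := pw_A (M+1)
    have hB := pw_B M
    unfold TP cd
    by_cases h : Even M
    · have h' : ¬ Even (M+1) := by rw [Nat.not_even_iff_odd]; exact h.add_one
      rw [if_pos h, if_neg h', if_neg h', T_eq]
      simp only [Nat.add_sub_cancel]
      have : pw (M+1) * (G (M+1) + (1/2+(-b))*A (M+1)*(G (M+1+1) - G (M+1))
            + (1/2-(-b))*B (M+1)*(G M - G (M+1)) - G (M+1))
          = (1/2-b)*(pw (M+1) * A (M+1))*(G (M+1+1) - G (M+1))
            + (1/2+b)*(pw (M+1) * B (M+1))*(G M - G (M+1)) := by ring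
      rw [this, hA, hB]; ring
    · have h' : Even (M+1) := by
        rw [Nat.not_even_iff_odd] at h; exact h.add_one
      rw [if_neg h, if_pos h', if_pos h', T_eq]
      simp only [Nat.add_sub_cancel]
      have : pw (M+1) * (G (M+1) + (1/2+b)*A (M+1)*(G (M+1+1) - G (M+1))
            + (1/2-b)*B (M+1)*(G M - G (M+1)) - G (M+1))
          = (1/2+b)*(pw (M+1) * A (M+1))*(G (M+1+1) - G (M+1))
            + (1/2-b)*(pw (M+1) * B (M+1))*(G M - G (M+1)) := by ring
      rw [this, hA, hB]; ring

theorem TP_bound {b : ℝ} (hb : 0 ≤ b) (hb2 : b ≤ 1/2) {G : ℕ → ℝ} {C : ℝ}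
    (hG0 : ∀ m, 0 ≤ G m) (hG : ∀ m, G m ≤ C) (m : ℕ) : 0 ≤ TP b G m ∧ TP b G m ≤ C := by
  unfold TP
  by_cases h : Even m
  · rw [if_pos h]; exact T_nonneg_bound hb hb2 hG0 hG m
  · rw [if_neg h]
    have hA := A_nonneg m
    have hA1 := A_le m
    have hB := B_nonneg m
    have hB1 := B_le m
    have h1 : 0 ≤ (1/2+(-b))*A m := mul_nonneg (by linarith) hA
    have h2 : 0 ≤ (1/2-(-b))*B m := mul_nonneg (by linarith) hB
    have h3 : (1/2+(-b))*A m + (1/2-(-b))*B m ≤ 1 := by nlinarith
    unfold T
    constructor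
    · have := mul_nonneg h1 (hG0 (m+1))
      have := mul_nonneg h2 (hG0 (m-1))
      have := mul_nonneg (by linarith : 0 ≤ 1-(1/2+(-b))*A m-(1/2-(-b))*B m) (hG0 m)
      linarith
    · have := mul_le_mul_of_nonneg_left (hG (m+1)) h1
      have := mul_le_mul_of_nonneg_left (hG (m-1)) h2
      have := mul_le_mul_of_nonneg_left (hG m) (by linarith : 0 ≤ 1-(1/2+(-b))*A m-(1/2-(-b))*B m)
      nlinarith

theorem TP_invariant {b : ℝ} (hb : 0 ≤ b) (hb2 : b ≤ 1/2) {G : ℕ → ℝ} {C : ℝ}
    (hG0 : ∀ m, 0 ≤ G m) (hG : ∀ m, G m ≤ C) :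
    ∑' m, pw m * TP b G m = ∑' m, pw m * G m := by
  have hC : 0 ≤ C := (hG0 0).trans (hG 0)
  have s1 : Summable fun m => pw m * G m :=
    Summable.of_nonneg_of_le (fun m => mul_nonneg (pw_pos m).le (hG0 m))
      (fun m => mul_le_mul_of_nonneg_left (hG m) (pw_pos m).le) (pw_summable.mul_right C)
  have s2 : Summable fun m => pw m * TP b G m :=
    Summable.of_nonneg_of_le (fun m => mul_nonneg (pw_pos m).le (TP_bound hb hb2 hG0 hG m).1)
      (fun m => mul_le_mul_of_nonneg_left (TP_bound hb hb2 hG0 hG m).2 (pw_pos m).le)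
      (pw_summable.mul_right C)
  have s3 := s2.sub s1
  have e : ∑' m, (pw m * TP b G m - pw m * G m) = 0 := by
    have h1 := s3.hasSum.tendsto_sum_nat.comp (tendsto_add_atTop_nat 1)
    have h2 : Tendsto (fun M => cd b M * (G (M+1) - G M)) atTop (𝓝 0) := by
      have hz : Tendsto (fun M => pw M * (2*C)) atTop (𝓝 0) := by
        simpa using pw_summable.tendsto_atTop_zero.mul_const (2*C)
      apply squeeze_zero_norm (fun M => ?_) hz
      rw [Real.norm_eq_abs, abs_mul]
      have hs := s_pos M
      have hcd : |cd b M| ≤ pw M := by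
        have hA := pw_A M
        have hA1 := A_le M
        have hA0 := A_nonneg M
        have hp := pw_pos M
        unfold cd
        rw [abs_of_nonneg (div_nonneg (by split_ifs <;> linarith) hs.le)]
        have h5 : (if Even M then 1/2+b else 1/2-b)/s M ≤ 1/s M := by
          apply div_le_div_of_nonneg_right _ hs.le
          split_ifs <;> linarith
        nlinarith
      have h6 : |G (M+1) - G M| ≤ 2*C := by
        rw [abs_le]
        constructor <;> linarith [hG0 (M+1), hG0 M, hG (M+1), hG M]
      exact mul_le_mul hcd h6 (abs_nonneg _) (pw_pos M).le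
    have h3 : (fun M => cd b M * (G (M+1) - G M))
        = (fun n => ∑ i ∈ Finset.range n, (pw i * TP b G i - pw i * G i)) ∘ fun a => a + 1 := by
      ext M
      simp only [Function.comp_apply]
      rw [← TP_flux b G M]
      apply Finset.sum_congr rfl
      intro i _
      ring
    rw [h3] at h2
    exact tendsto_nhds_unique h1 h2
  rw [s2.tsum_sub s1] at e
  linarith

theorem idxP_measurable (a : ℕ → ℝ) (t : ℕ) : Measurable (fun ω => idx (walkPrinted a ω t)) :=
  (measurable_of_countable idx).comp (walkP_measurable a t)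

theorem law_le (a : ℕ → ℝ) (ha : ∀ t, 1 ≤ t → 8 ≤ a t) (t : ℕ) (G : ℕ → ℝ) (C : ℝ)
    (hG0 : ∀ m, 0 ≤ G m) (hG : ∀ m, G m ≤ C) :
    ∫ ω, G (idx (walkPrinted a ω t)) ∂noise ≤ ∑' m, pw m * G m := by
  induction t generalizing G with
  | zero =>
    have hs : Summable fun m => pw m * G m :=
      Summable.of_nonneg_of_le (fun m => mul_nonneg (pw_pos m).le (hG0 m))
        (fun m => mul_le_mul_of_nonneg_left (hG m) (pw_pos m).le) (pw_summable.mul_right C)
    have h1 : ∀ ω, G (idx (walkPrinted a ω 0)) = G 0 := fun ω => rfl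
    simp only [h1, integral_const, probReal_univ, smul_eq_mul, one_mul]
    have h2 := hs.le_tsum 0 (fun m _ => mul_nonneg (pw_pos m).le (hG0 m))
    have h3 : pw 0 = 1 := by simp [pw]
    rw [h3, one_mul] at h2
    exact h2
  | succ t ih =>
    have hb := bias_mem (ha (t+1) (by omega))
    rw [integral_stepP a t (fun x => G (idx x)) C (fun x => by
      rw [abs_of_nonneg (hG0 _)]; exact hG _)]
    have e : ∫ ω, (∫ u, G (idx (stepPrinted (a (t+1)) (walkPrinted a ω t) u)) ∂unif2) ∂noise
        = ∫ ω, TP (4/a (t+1)) G (idx (walkPrinted a ω t)) ∂noise := by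
      apply integral_congr_ae
      filter_upwards [noise_nonneg] with ω hω
      exact one_stepP_idx _ (ha _ (by omega)) _ (walkP_mem a ω hω t) G
    rw [e]
    refine (ih (TP (4/a (t+1)) G) (fun m => (TP_bound hb.1 hb.2 hG0 hG m).1)
      (fun m => (TP_bound hb.1 hb.2 hG0 hG m).2)).trans ?_
    rw [TP_invariant hb.1 hb.2 hG0 hG]

/-- **The walk as printed never diverges.** -/
theorem printed_zero (a : ℕ → ℝ) (ha : ∀ t, 1 ≤ t → 8 ≤ a t) :
    noise {ω | Tendsto (fun t => (walkPrinted a ω t).2) atTop atTop} = 0 := by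
  set U : Set (ℕ → ℝ × ℝ) := {ω | Tendsto (fun t => (walkPrinted a ω t).2) atTop atTop} with hU
  have htail : Tendsto (fun M => ∑' m, pw (m+M)) atTop (𝓝 0) := tendsto_sum_nat_add pw
  have hbound : ∀ M, noise.real U ≤ ∑' m, pw (m+M) := by
    intro M
    set V : ℕ → Set (ℕ → ℝ × ℝ) := fun t₀ => {ω | ∀ t, t₀ ≤ t → M ≤ idx (walkPrinted a ω t)} with hV
    have hmono : Monotone V := fun t₀ t₁ h ω hω t ht => hω t (h.trans ht)
    have hsub : ∀ᵐ ω ∂noise, ω ∈ U → ω ∈ ⋃ n, V n := by
      filter_upwards [noise_nonneg] with ω hω hωU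
      have h1 : Tendsto (fun t => (walkPrinted a ω t).2) atTop atTop := hωU
      rw [tendsto_atTop] at h1
      obtain ⟨t₀, ht₀⟩ := eventually_atTop.1 (h1 (M+2))
      rw [Set.mem_iUnion]
      refine ⟨t₀, fun t ht => ?_⟩
      have h2 := ht₀ t ht
      obtain ⟨g1, g2, g3⟩ := walkP_mem a ω hω t
      unfold idx
      rcases g3 with g3 | g3 <;> omega
    have hV1 : ∀ n, noise.real (V n) ≤ ∑' m, pw (m+M) := by
      intro n
      have hm : MeasurableSet {ω | M ≤ idx (walkPrinted a ω n)} :=
        (idxP_measurable a n) (measurableSet_Ici (a := M))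
      have h1 : noise.real (V n) ≤ noise.real {ω | M ≤ idx (walkPrinted a ω n)} :=
        measureReal_mono (fun ω hω => hω n le_rfl) (measure_ne_top _ _)
      have h2 := law_le a ha n (fun m => if M ≤ m then (1:ℝ) else 0) 1
        (fun m => by split_ifs <;> norm_num) (fun m => by split_ifs <;> norm_num)
      have h3 : ∫ ω, (if M ≤ idx (walkPrinted a ω n) then (1:ℝ) else 0) ∂noise
          = noise.real {ω | M ≤ idx (walkPrinted a ω n)} := by
        rw [← integral_indicator_one hm]
        apply integral_congr_ae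
        refine Eventually.of_forall fun ω => ?_
        by_cases h : M ≤ idx (walkPrinted a ω n)
        · simp only [if_pos h]
          exact (Set.indicator_of_mem (show ω ∈ {ω | M ≤ idx (walkPrinted a ω n)} from h)
            (1 : (ℕ → ℝ × ℝ) → ℝ)).symm
        · simp only [if_neg h]
          exact (Set.indicator_of_notMem (show ω ∉ {ω | M ≤ idx (walkPrinted a ω n)} from h)
            (1 : (ℕ → ℝ × ℝ) → ℝ)).symm
      have h4 : ∑' m, pw m * (if M ≤ m then (1:ℝ) else 0) = ∑' m, pw (m+M) := by
        have hs : Summable fun m => pw m * (if M ≤ m then (1:ℝ) else 0) :=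
          Summable.of_nonneg_of_le (fun m => mul_nonneg (pw_pos m).le (by split_ifs <;> norm_num))
            (fun m => by
              have := pw_pos m
              split_ifs <;> linarith) pw_summable
        rw [← hs.sum_add_tsum_nat_add M]
        have h5 : ∑ i ∈ Finset.range M, pw i * (if M ≤ i then (1:ℝ) else 0) = 0 := by
          apply Finset.sum_eq_zero
          intro i hi
          rw [Finset.mem_range] at hi
          rw [if_neg (by omega), mul_zero]
        rw [h5, zero_add]
        apply tsum_congr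
        intro i
        rw [if_pos (by omega), mul_one]
      rw [h3, h4] at h2
      linarith
    have ht := tendsto_measure_iUnion_atTop (μ := noise) hmono
    have ht2 : Tendsto (fun n => noise.real (V n)) atTop (𝓝 (noise.real (⋃ n, V n))) :=
      (ENNReal.tendsto_toReal (measure_ne_top _ _)).comp ht
    have h3 : noise.real (⋃ n, V n) ≤ ∑' m, pw (m+M) := le_of_tendsto' ht2 hV1
    have h4 : noise.real U ≤ noise.real (⋃ n, V n) := by
      rw [measureReal_def, measureReal_def]
      exact ENNReal.toReal_mono (measure_ne_top _ _) (measure_mono_ae hsub)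
    linarith
  have h0 : noise.real U ≤ 0 := ge_of_tendsto' htail hbound
  have h1 : noise.real U = 0 := le_antisymm h0 measureReal_nonneg
  rwa [measureReal_eq_zero_iff] at h1

end

end Pool.Agent.Y774.ST
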