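import Mathlib
import Pool.Agent.Y774.ST.DivB

/-!
Random walk on stairs: if `a_t ≥ δ √t` (any `δ > 0`), the walk returns to the bottom infinitely
often almost surely.
-/

set_option autoImplicit false

namespace Pool.Agent.Y774.ST

open MeasureTheory ProbabilityTheory Filter Topology
open Pool.Agent.Results.MP_1da119_pr.StairsDivergence
open Pool.Agent.H528R3.Stairs (A B T T_eq T_mono T_const A_nonneg A_le B_nonneg B_le)

noncomputable section

/-- the concave profile -/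
def ff (l Y y : ℝ) : ℝ :=
  1 + if y ≤ Y then (1 - Real.exp (-(l*y)))/l
    else (1 - Real.exp (-(l*Y)))/l + Real.exp (-(l*Y))*(y-Y)

theorem g_diff_le {l : ℝ} (hl : 0 < l) {x y : ℝ} :
    (1 - Real.exp (-(l*y)))/l - (1 - Real.exp (-(l*x)))/l ≤ Real.exp (-(l*x))*(y-x) := by
  have h1 := Real.add_one_le_exp (-(l*(y-x)))
  have h2 : Real.exp (-(l*y)) = Real.exp (-(l*x)) * Real.exp (-(l*(y-x))) := by
    rw [← Real.exp_add]; congr 1; ring
  have h3 := Real.exp_pos (-(l*x))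
  rw [div_sub_div_same, div_le_iff₀ hl, h2]
  nlinarith

theorem g_diff_ge {l : ℝ} (hl : 0 < l) {x y : ℝ} (hxy : x ≤ y) :
    Real.exp (-(l*y))*((y-x) + l*(y-x)^2/2)
      ≤ (1 - Real.exp (-(l*y)))/l - (1 - Real.exp (-(l*x)))/l := by
  have h1 := Real.quadratic_le_exp_of_nonneg (show 0 ≤ l*(y-x) by
    apply mul_nonneg hl.le; linarith)
  have h2 : Real.exp (-(l*x)) = Real.exp (-(l*y)) * Real.exp (l*(y-x)) := by
    rw [← Real.exp_add]; congr 1; ring
  have h3 := Real.exp_pos (-(l*y))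
  rw [div_sub_div_same, le_div_iff₀ hl, h2]
  have h4 := mul_le_mul_of_nonneg_left h1 h3.le
  nlinarith

theorem ff_diff_le {l Y : ℝ} (hl : 0 < l) {y h : ℝ} (hh : 0 ≤ h) :
    ff l Y (y+h) - ff l Y y ≤ h * Real.exp (-(l*min y Y)) := by
  unfold ff
  by_cases h1 : y + h ≤ Y
  · have h2 : y ≤ Y := by linarith
    rw [if_pos h1, if_pos h2, min_eq_left h2]
    have := g_diff_le hl (x := y) (y := y+h)
    have e : y + h - y = h := by ring
    rw [e] at this
    linarith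
  · push Not at h1
    rw [if_neg (not_le.2 h1)]
    by_cases h2 : y ≤ Y
    · rw [if_pos h2, min_eq_left h2]
      have g1 := g_diff_le hl (x := y) (y := Y)
      have g2 : Real.exp (-(l*Y)) ≤ Real.exp (-(l*y)) := Real.exp_le_exp.2 (by nlinarith)
      have g3 : Real.exp (-(l*Y))*(y+h-Y) ≤ Real.exp (-(l*y))*(y+h-Y) :=
        mul_le_mul_of_nonneg_right g2 (by linarith)
      nlinarith
    · rw [if_neg h2]
      push Not at h2
      rw [min_eq_right h2.le]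
      apply le_of_eq
      ring

theorem ff_diff_ge_low {l Y : ℝ} (hl : 0 < l) {y h : ℝ} (hh : 0 ≤ h) (hy : y ≤ Y) :
    Real.exp (-(l*y))*(h + l*h^2/2) ≤ ff l Y y - ff l Y (y-h) := by
  unfold ff
  rw [if_pos hy, if_pos (by linarith)]
  have := g_diff_ge hl (x := y-h) (y := y) (by linarith)
  have e : y - (y - h) = h := by ring
  rw [e] at this
  linarith

theorem ff_diff_ge_high {l Y : ℝ} (hl : 0 < l) {y h : ℝ} (hh : 0 ≤ h) (hy : Y < y) :
    Real.exp (-(l*Y))*h ≤ ff l Y y - ff l Y (y-h) := by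
  unfold ff
  rw [if_neg (not_le.2 hy)]
  by_cases h1 : y - h ≤ Y
  · rw [if_pos h1]
    have g1 := g_diff_ge hl (x := y-h) (y := Y) h1
    have g2 := Real.exp_pos (-(l*Y))
    have g3 : Real.exp (-(l*Y))*(Y-(y-h)) ≤ Real.exp (-(l*Y))*((Y-(y-h)) + l*(Y-(y-h))^2/2) := by
      apply mul_le_mul_of_nonneg_left _ g2.le
      have : 0 ≤ l*(Y-(y-h))^2/2 := by positivity
      linarith
    nlinarith
  · rw [if_neg h1]
    apply le_of_eq
    ring

theorem ff_mono {l Y : ℝ} (hl : 0 < l) {x y : ℝ} (hxy : x ≤ y) : ff l Y x ≤ ff l Y y := by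
  by_cases hy : y ≤ Y
  · have := ff_diff_ge_low hl (h := y - x) (by linarith) hy
    have e : y - (y-x) = x := by ring
    rw [e] at this
    have h0 : 0 ≤ Real.exp (-(l*y))*((y-x) + l*(y-x)^2/2) := by
      have : 0 ≤ y - x := by linarith
      positivity
    linarith
  · push Not at hy
    have := ff_diff_ge_high hl (h := y - x) (by linarith) hy
    have e : y - (y-x) = x := by ring
    rw [e] at this
    have h0 : 0 ≤ Real.exp (-(l*Y))*(y-x) := by
      have : 0 ≤ y - x := by linarith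
      positivity
    linarith

theorem ff_zero {l Y : ℝ} (hY : 0 ≤ Y) : ff l Y 0 = 1 := by
  unfold ff; rw [if_pos hY]; simp

theorem ff_ge_one {l Y : ℝ} (hl : 0 < l) (hY : 0 ≤ Y) {y : ℝ} (hy : 0 ≤ y) : 1 ≤ ff l Y y := by
  rw [← ff_zero (l := l) hY]; exact ff_mono hl hy

theorem ff_le {l Y : ℝ} (hl : 0 < l) (hY : 0 ≤ Y) {y : ℝ} (hy : 0 ≤ y) : ff l Y y ≤ 1 + y := by
  have h1 := ff_diff_le (Y := Y) hl (y := 0) hy
  rw [zero_add, ff_zero hY, min_eq_left hY] at h1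
  simp at h1
  linarith

theorem B_ge_half {m : ℕ} (hm : 1 ≤ m) : 1/2 ≤ B m := by
  unfold B
  rw [if_neg (by omega)]
  split_ifs with h
  · rw [le_div_iff₀ (by positivity)]
    push_cast
    have : (0:ℝ) ≤ ((m/2:ℕ):ℝ) := Nat.cast_nonneg _
    nlinarith
  · exact le_rfl

theorem A_le_half (m : ℕ) : A m ≤ 1/2 := by
  unfold A
  split_ifs
  · exact le_rfl
  · rw [div_le_iff₀ (by positivity)]
    push_cast
    have : (0:ℝ) ≤ ((m/2:ℕ):ℝ) := Nat.cast_nonneg _
    nlinarith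

/-- the time dependent function -/
def Gz (l Y : ℝ) (t m : ℕ) : ℝ := if m = 0 then 0 else ff l Y (((min m t : ℕ):ℝ)/Real.sqrt t)

theorem Gz_nonneg {l Y : ℝ} (hl : 0 < l) (hY : 0 ≤ Y) (t m : ℕ) : 0 ≤ Gz l Y t m := by
  unfold Gz
  split_ifs
  · exact le_rfl
  · exact zero_le_one.trans (ff_ge_one hl hY (by positivity))

theorem Gz_ge_one {l Y : ℝ} (hl : 0 < l) (hY : 0 ≤ Y) (t m : ℕ) (hm : 1 ≤ m) : 1 ≤ Gz l Y t m := by
  unfold Gz
  rw [if_neg (by omega)]
  exact ff_ge_one hl hY (by positivity)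

theorem Gz_le {l Y : ℝ} (hl : 0 < l) (hY : 0 ≤ Y) (t m : ℕ) : Gz l Y t m ≤ 1 + Real.sqrt t := by
  unfold Gz
  split_ifs
  · positivity
  · refine (ff_le hl hY (by positivity)).trans ?_
    have h1 : ((min m t : ℕ):ℝ) ≤ t := by exact_mod_cast min_le_right m t
    have h2 : ((min m t : ℕ):ℝ)/Real.sqrt t ≤ t/Real.sqrt t :=
      div_le_div_of_nonneg_right h1 (Real.sqrt_nonneg _)
    rw [Real.div_sqrt] at h2
    linarith

theorem aux_hy {m τ σ : ℝ} (hm : 0 ≤ m) (hτ : 0 < τ) (hσ : 0 < σ) (h : τ ≤ 2*σ) :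
    m/σ ≤ 2*(m/τ) := by
  rw [div_le_iff₀ hσ]
  have e : 2*(m/τ)*σ = m*((2*σ)/τ) := by ring
  rw [e]
  have h1 : 1 ≤ (2*σ)/τ := by rw [le_div_iff₀ hτ]; linarith
  calc m = m*1 := (mul_one m).symm
    _ ≤ _ := mul_le_mul_of_nonneg_left h1 hm

theorem aux_q {b B' : ℝ} (hb4 : b ≤ 1/4) (hB : 1/2 ≤ B') : 1/8 ≤ (1/2-b)*B' := by nlinarith

theorem aux_pq {b A' B' : ℝ} (hb0 : 0 ≤ b) (hA2 : A' ≤ 1/2) (hB : 1/2 ≤ B') (hB1 : B' ≤ 1) :
    (1/2+b)*A' - (1/2-b)*B' ≤ 2*b := by nlinarith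

theorem aux_k4 {p q l h β : ℝ} (hl : l = 16*(2*β+1)) (hl0 : 0 ≤ l) (hh : 0 ≤ h) (hq : 1/8 ≤ q)
    (hpq : p - q ≤ 2*β*h) : h*((p-q) - q*l*h/2) ≤ -h^2 := by
  have h0 := mul_le_mul_of_nonneg_right hq (mul_nonneg hl0 hh)
  have h5 : (p-q) - q*l*h/2 ≤ -h := by
    have : 1/8*(l*h)/2 = 2*β*h + h := by rw [hl]; ring
    linarith
  have := mul_le_mul_of_nonneg_left h5 hh
  linarith

theorem aux_k6 {E Y h f : ℝ} (hE : 0 ≤ E) (hY : 0 ≤ Y) (hf : f ≤ 1+2*Y) :
    E/(1+2*Y)*h^2*f ≤ h^2*E := by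
  have e : E/(1+2*Y)*h^2*f = (h^2*E)*(f/(1+2*Y)) := by ring
  rw [e]
  have : f/(1+2*Y) ≤ 1 := by
    rw [div_le_one (by positivity)]; exact hf
  calc (h^2*E)*(f/(1+2*Y)) ≤ (h^2*E)*1 := mul_le_mul_of_nonneg_left this (by positivity)
    _ = _ := mul_one _

theorem aux_k7 {E Y h f y β : ℝ} (hE : 0 ≤ E) (hβ : 1 ≤ β) (hY : Y = 8*β) (hy : Y < y)
    (hf : f ≤ 1 + 2*y) : E/(1+2*Y)*h^2*f ≤ E*(h^2*(y/2-2*β)) := by
  have hY8 : 8 ≤ Y := by rw [hY]; linarith
  have e : E/(1+2*Y)*h^2*f = (E*h^2)*(f/(1+2*Y)) := by ring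
  rw [e]
  have : f/(1+2*Y) ≤ y/2-2*β := by
    rw [div_le_iff₀ (by positivity)]
    have h4 : y/4 ≤ y/2 - 2*β := by linarith
    have h5 : f ≤ 3*y := by linarith
    have h6 : 3*y ≤ y/4*(1+2*Y) := by nlinarith
    have h7 : y/4*(1+2*Y) ≤ (y/2-2*β)*(1+2*Y) := mul_le_mul_of_nonneg_right h4 (by positivity)
    linarith
  calc (E*h^2)*(f/(1+2*Y)) ≤ (E*h^2)*(y/2-2*β) := mul_le_mul_of_nonneg_left this (by positivity)
    _ = _ := by ring

theorem zero_step {β b : ℝ} (hβ : 1 ≤ β) (hb0 : 0 ≤ b) (hb4 : b ≤ 1/4) (t m : ℕ) (ht : 1 ≤ t)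
    (hb : b ≤ β/Real.sqrt ((t:ℝ)+1)) (hm : 1 ≤ m) (hmt : m ≤ t) :
    T b (Gz (16*(2*β+1)) (8*β) (t+1)) m
      ≤ (1 - Real.exp (-((16*(2*β+1))*(8*β)))/(1+2*(8*β))*(1/((t:ℝ)+1)))
        * Gz (16*(2*β+1)) (8*β) t m := by
  set l : ℝ := 16*(2*β+1) with hl
  set Y : ℝ := 8*β with hY
  have hl0 : 0 < l := by rw [hl]; positivity
  have hY0 : 0 ≤ Y := by rw [hY]; positivity
  set τ : ℝ := Real.sqrt ((t:ℝ)+1) with hτ
  set σ : ℝ := Real.sqrt (t:ℝ) with hσ
  have htr : (1:ℝ) ≤ t := by exact_mod_cast ht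
  have hτ2 : τ^2 = t+1 := Real.sq_sqrt (by positivity)
  have hσ2 : σ^2 = t := Real.sq_sqrt (by positivity)
  have hτ0 : 0 < τ := Real.sqrt_pos.2 (by positivity)
  have hσ0 : 0 < σ := Real.sqrt_pos.2 (by linarith)
  have hστ : σ ≤ τ := Real.sqrt_le_sqrt (by linarith)
  have hτσ : τ ≤ 2*σ := by
    apply le_of_sq_le_sq _ (by positivity)
    rw [mul_pow, hτ2, hσ2]; linarith
  have hmr : (1:ℝ) ≤ m := by exact_mod_cast hm
  set h : ℝ := 1/τ with hh
  have hh0 : 0 < h := by positivity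
  have hh2 : h^2 = 1/((t:ℝ)+1) := by rw [hh, div_pow, one_pow, hτ2]
  set y : ℝ := m/τ with hy
  have hy0 : 0 ≤ y := by positivity
  set y' : ℝ := m/σ with hy'
  have hyy' : y ≤ y' := div_le_div_of_nonneg_left (by positivity) hσ0 hστ
  have hy'2 : y' ≤ 2*y := aux_hy (by linarith) hτ0 hσ0 hτσ
  have hy'0 : 0 ≤ y' := by positivity
  -- the values of the functions
  have hcast : Real.sqrt (((t+1:ℕ):ℝ)) = τ := by rw [hτ]; push_cast; rfl
  have v0 : Gz l Y (t+1) m = ff l Y y := by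
    unfold Gz
    rw [if_neg (by omega), hcast, min_eq_left (by omega)]
  have v1 : Gz l Y (t+1) (m+1) = ff l Y (y+h) := by
    unfold Gz
    rw [if_neg (by omega), hcast, min_eq_left (by omega)]
    congr 1
    rw [hy, hh]; push_cast; ring
  have v2 : Gz l Y (t+1) (m-1) ≤ ff l Y (y-h) := by
    unfold Gz
    split_ifs with h0
    · have : m = 1 := by omega
      have hy1 : y - h = 0 := by rw [hy, hh, this]; push_cast; ring
      rw [hy1, ff_zero hY0]; exact zero_le_one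
    · rw [hcast, min_eq_left (by omega)]
      apply le_of_eq
      congr 1
      rw [hy, hh, Nat.cast_sub hm]; push_cast; ring
  have v3 : Gz l Y t m = ff l Y y' := by
    unfold Gz
    rw [if_neg (by omega), min_eq_left hmt]
  set p : ℝ := (1/2+b)*A m with hp
  set q : ℝ := (1/2-b)*B m with hq
  have hA := A_nonneg m
  have hA2 := A_le_half m
  have hB := B_ge_half hm
  have hB1 := B_le m
  have hp0 : 0 ≤ p := mul_nonneg (by linarith) hA
  have hq8 : 1/8 ≤ q := aux_q hb4 hB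
  have hpq : p - q ≤ 2*β*h := by
    have h1 : p - q ≤ 2*b := aux_pq hb0 hA2 hB hB1
    have h2 : b ≤ β*h := by rw [hh]; linarith [show β/τ = β*(1/τ) by ring]
    linarith
  have hT : T b (Gz l Y (t+1)) m
      ≤ ff l Y y + p*(ff l Y (y+h) - ff l Y y) - q*(ff l Y y - ff l Y (y-h)) := by
    rw [T_eq, v0, v1, ← hp, ← hq]
    have : q*(Gz l Y (t+1) (m-1) - ff l Y y) ≤ q*(ff l Y (y-h) - ff l Y y) :=
      mul_le_mul_of_nonneg_left (by linarith) (by linarith)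
    linarith
  rw [v3]
  refine hT.trans ?_
  have hE := Real.exp_pos (-(l*Y))
  have hd1 := ff_diff_le (Y := Y) hl0 (y := y) hh0.le
  have hf1 : ff l Y y' ≤ 1 + y' := ff_le hl0 hY0 hy'0
  have hf0 : 1 ≤ ff l Y y' := ff_ge_one hl0 hY0 hy'0
  rw [← hh2]
  by_cases hyY : y ≤ Y
  · rw [min_eq_left hyY] at hd1
    have hd2 := ff_diff_ge_low hl0 hh0.le hyY
    have hEy : Real.exp (-(l*Y)) ≤ Real.exp (-(l*y)) :=
      Real.exp_le_exp.2 (neg_le_neg (mul_le_mul_of_nonneg_left hyY hl0.le))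
    have hEy0 := Real.exp_pos (-(l*y))
    have hmono : ff l Y y ≤ ff l Y y' := ff_mono hl0 hyy'
    have k1 : p*(ff l Y (y+h) - ff l Y y) ≤ p*(h*Real.exp (-(l*y))) :=
      mul_le_mul_of_nonneg_left hd1 hp0
    have k2 : q*(Real.exp (-(l*y))*(h + l*h^2/2)) ≤ q*(ff l Y y - ff l Y (y-h)) :=
      mul_le_mul_of_nonneg_left hd2 (by linarith)
    have k3 : p*(h*Real.exp (-(l*y))) - q*(Real.exp (-(l*y))*(h + l*h^2/2))
        = Real.exp (-(l*y))*(h*((p-q) - q*l*h/2)) := by ring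
    have k4 : h*((p-q) - q*l*h/2) ≤ -h^2 := aux_k4 hl hl0.le hh0.le hq8 hpq
    have k5 : Real.exp (-(l*y))*(h*((p-q) - q*l*h/2)) ≤ -(h^2*Real.exp (-(l*Y))) := by
      have := mul_le_mul_of_nonneg_left k4 hEy0.le
      have : h^2*Real.exp (-(l*Y)) ≤ h^2*Real.exp (-(l*y)) :=
        mul_le_mul_of_nonneg_left hEy (sq_nonneg _)
      linarith
    have k6 : Real.exp (-(l*Y))/(1+2*Y)*h^2*ff l Y y' ≤ h^2*Real.exp (-(l*Y)) :=
      aux_k6 hE.le hY0 (by linarith)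
    linarith
  · push Not at hyY
    rw [min_eq_right hyY.le] at hd1
    have hd2 := ff_diff_ge_high hl0 hh0.le hyY
    have k1 : p*(ff l Y (y+h) - ff l Y y) ≤ p*(h*Real.exp (-(l*Y))) :=
      mul_le_mul_of_nonneg_left hd1 hp0
    have k2 : q*(Real.exp (-(l*Y))*h) ≤ q*(ff l Y y - ff l Y (y-h)) :=
      mul_le_mul_of_nonneg_left hd2 (by linarith)
    have k3 : (p-q)*(h*Real.exp (-(l*Y))) ≤ (2*β*h)*(h*Real.exp (-(l*Y))) :=
      mul_le_mul_of_nonneg_right hpq (by positivity)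
    have k4 : Real.exp (-(l*Y))*(y'-y) ≤ ff l Y y' - ff l Y y := by
      unfold ff
      rw [if_neg (not_le.2 hyY), if_neg (not_le.2 (lt_of_lt_of_le hyY hyy'))]
      apply le_of_eq; ring
    have k5 : y*h^2/2 ≤ y' - y := by
      have e1 : y' - y = m*(τ-σ)/(σ*τ) := by rw [hy', hy]; field_simp
      have e2 : (τ-σ)*(τ+σ) = 1 := by
        have : (τ-σ)*(τ+σ) = τ^2-σ^2 := by ring
        rw [this, hτ2, hσ2]; ring
      have e3 : τ-σ = 1/(τ+σ) := by
        rw [eq_div_iff (by positivity)]; exact e2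
      have e4 : 1/(2*τ) ≤ τ-σ := by
        rw [e3]; exact one_div_le_one_div_of_le (by positivity) (by linarith)
      have e5 : y*h^2/2 = m*(1/(2*τ))/(τ*τ) := by rw [hy, hh]; field_simp
      rw [e1, e5]
      apply div_le_div₀
      · exact mul_nonneg (by positivity) (by linarith)
      · exact mul_le_mul_of_nonneg_left e4 (by positivity)
      · positivity
      · exact mul_le_mul_of_nonneg_right hστ hτ0.le
    have k6 : Real.exp (-(l*Y))*(y*h^2/2) ≤ Real.exp (-(l*Y))*(y'-y) :=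
      mul_le_mul_of_nonneg_left k5 hE.le
    have k7 : Real.exp (-(l*Y))/(1+2*Y)*h^2*ff l Y y' ≤ Real.exp (-(l*Y))*(h^2*(y/2-2*β)) :=
      aux_k7 hE.le hβ hY hyY (by linarith)
    have k8 : Real.exp (-(l*Y))*(h^2*(y/2-2*β))
        = Real.exp (-(l*Y))*(y*h^2/2) - (2*β*h)*(h*Real.exp (-(l*Y))) := by ring
    have k9 : (p-q)*(h*Real.exp (-(l*Y))) = p*(h*Real.exp (-(l*Y))) - q*(Real.exp (-(l*Y))*h) := by
      ring
    rw [k8] at k7
    rw [k9] at k3
    linarith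

/-- **No divergence if `a_t ≥ δ √t`.** -/
theorem zero_prob (a : ℕ → ℝ) (ha : ∀ t, 1 ≤ t → 8 ≤ a t) (δ : ℝ) (hδ : 0 < δ)
    (hroot : ∀ t : ℕ, 1 ≤ t → δ * Real.sqrt t ≤ a t) :
    noise {ω | Tendsto (fun t => (walk a ω t).2) atTop atTop} = 0 := by
  set β : ℝ := max 1 (4/δ) with hβ
  have hβ1 : 1 ≤ β := le_max_left _ _
  set l : ℝ := 16*(2*β+1) with hl
  set Y : ℝ := 8*β with hY
  have hl0 : 0 < l := by rw [hl]; positivity
  have hY0 : 0 ≤ Y := by rw [hY]; positivity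
  set c : ℝ := Real.exp (-(l*Y))/(1+2*Y) with hc
  have hc0 : 0 < c := by rw [hc]; positivity
  have hc1 : c ≤ 1 := by
    rw [hc, div_le_one (by positivity)]
    have : Real.exp (-(l*Y)) ≤ 1 := by
      rw [← Real.exp_zero]
      apply Real.exp_le_exp.2
      have := mul_nonneg hl0.le hY0
      linarith
    linarith
  obtain ⟨T₁, hT₁⟩ := exists_nat_ge (16*β^2)
  have hb : ∀ t : ℕ, T₁ ≤ t → 1 ≤ t → 4/a (t+1) ≤ β/Real.sqrt ((t:ℝ)+1) ∧ 4/a (t+1) ≤ 1/4 := by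
    intro t ht ht1
    have h1 := hroot (t+1) (by omega)
    push_cast at h1
    have hs : 0 < Real.sqrt ((t:ℝ)+1) := Real.sqrt_pos.2 (by positivity)
    have ha8 := ha (t+1) (by omega)
    have g1 : 4/a (t+1) ≤ β/Real.sqrt ((t:ℝ)+1) := by
      have g2 : 4/a (t+1) ≤ 4/(δ*Real.sqrt ((t:ℝ)+1)) :=
        div_le_div_of_nonneg_left (by norm_num) (by positivity) h1
      have g3 : 4/(δ*Real.sqrt ((t:ℝ)+1)) = (4/δ)/Real.sqrt ((t:ℝ)+1) := by rw [div_div]
      rw [g3] at g2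
      exact g2.trans (div_le_div_of_nonneg_right (le_max_right _ _) hs.le)
    refine ⟨g1, g1.trans ?_⟩
    rw [div_le_iff₀ hs]
    have g4 : 4*β ≤ Real.sqrt ((t:ℝ)+1) := by
      apply Real.le_sqrt_of_sq_le
      have : (T₁:ℝ) ≤ t := by exact_mod_cast ht
      nlinarith
    linarith
  have hno : ∀ T₀, T₁ ≤ T₀ → 1 ≤ T₀ → noise {ω | ∀ r, 0 < idx (walk a ω (T₀+r))} = 0 := by
    intro T₀ hT0 hT01
    have hind : ∀ (U : Set (ℕ → ℝ × ℝ)) ω, |U.indicator (fun _ => (1:ℝ)) ω| ≤ 1 := by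
      intro U ω
      by_cases h : ω ∈ U
      · rw [Set.indicator_of_mem h]; simp
      · rw [Set.indicator_of_notMem h]; simp
    have hKm : ∀ n, MeasurableSet (Kp a Set.univ T₀ 0 n) := fun n =>
      Kp_measurable a MeasurableSet.univ T₀ 0 n
    have hmi : ∀ n, Measurable ((Kp a Set.univ T₀ 0 n).indicator (fun _ => (1:ℝ))) := fun n =>
      measurable_const.indicator (hKm n)
    have habs : ∀ t m, |Gz l Y t m| ≤ 1 + Real.sqrt t := fun t m => by
      rw [abs_of_nonneg (Gz_nonneg hl0 hY0 t m)]; exact Gz_le hl0 hY0 t m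
    set J : ℕ → ℝ := fun n => ∫ ω, (Kp a Set.univ T₀ 0 n).indicator (fun _ => (1:ℝ)) ω
      * Gz l Y (T₀+n) (idx (walk a ω (T₀+n))) ∂noise with hJ
    have hJ0 : ∀ n, 0 ≤ J n := fun n => integral_nonneg fun ω =>
      mul_nonneg (Set.indicator_nonneg (fun _ _ => by norm_num) _) (Gz_nonneg hl0 hY0 _ _)
    have hrec : ∀ n, J (n+1) ≤ (1 - c*(1/(((T₀+n:ℕ):ℝ)+1))) * J n + 0 := by
      intro n
      have h1 := killed_step a ha MeasurableSet.univ T₀ 0 (fun _ _ _ => by simp)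
        (Gz l Y (T₀+n+1)) (1 + Real.sqrt ((T₀+n+1:ℕ):ℝ)) (Gz_nonneg hl0 hY0 _) (Gz_le hl0 hY0 _) n
      rw [add_zero]
      refine h1.trans ?_
      simp only [hJ]
      rw [← integral_const_mul]
      have hbn := hb (T₀+n) (by omega) (by omega)
      have hb8 := bias_mem (ha (T₀+n+1) (by omega))
      apply integral_mono
      · apply integrable_past a (T₀+n) _ (hmi n) 1 (hind _) (T (4/a (T₀+n+1)) (Gz l Y (T₀+n+1)))
          (1 + Real.sqrt ((T₀+n+1:ℕ):ℝ))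
        intro m
        have := T_nonneg_bound hb8.1 hb8.2 (Gz_nonneg hl0 hY0 (T₀+n+1)) (Gz_le hl0 hY0 (T₀+n+1)) m
        rw [abs_of_nonneg this.1]; exact this.2
      · exact (integrable_past a (T₀+n) _ (hmi n) 1 (hind _) (Gz l Y (T₀+n))
          (1 + Real.sqrt ((T₀+n:ℕ):ℝ)) (habs _)).const_mul _
      · intro ω
        simp only
        by_cases hω : ω ∈ Kp a Set.univ T₀ 0 n
        · rw [ind1 hω, one_mul, one_mul]
          exact zero_step hβ1 hb8.1 hbn.2 (T₀+n) _ (by omega) hbn.1 (hω.2 n le_rfl) (idx_le a ω _)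
        · rw [ind0 hω, zero_mul, zero_mul, mul_zero]
    have hlim : Tendsto J atTop (𝓝 0) := by
      apply tendsto_zero_of_rec J (fun n => c*(1/(((T₀+n:ℕ):ℝ)+1))) (fun _ => 0) hJ0
      · intro n; positivity
      · intro n; exact le_rfl
      · exact summable_zero
      · intro hs
        have h1 : Summable fun n : ℕ => 1/(((T₀+n:ℕ):ℝ)+1) := by
          have := hs.mul_left (1/c)
          refine this.congr fun n => ?_
          field_simp
        have h2 : Summable fun n : ℕ => 1/((n+(T₀+1):ℕ):ℝ) := by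
          refine h1.congr fun n => ?_
          congr 1
          push_cast; ring
        exact Real.not_summable_one_div_natCast ((summable_nat_add_iff (T₀+1)).1 h2)
      · exact hrec
    have hbound : ∀ n, noise.real {ω | ∀ r, 0 < idx (walk a ω (T₀+r))} ≤ J n := by
      intro n
      have h1 : noise.real {ω | ∀ r, 0 < idx (walk a ω (T₀+r))}
          ≤ noise.real (Kp a Set.univ T₀ 0 n) :=
        measureReal_mono (fun ω hω => ⟨trivial, fun r _ => hω r⟩) (measure_ne_top _ _)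
      refine h1.trans ?_
      rw [← integral_indicator_one (hKm n)]
      apply integral_mono
      · exact (integrable_const (1:ℝ)).indicator (hKm n)
      · exact integrable_past a (T₀+n) _ (hmi n) 1 (hind _) (Gz l Y (T₀+n))
          (1 + Real.sqrt ((T₀+n:ℕ):ℝ)) (habs _)
      · intro ω
        by_cases hω : ω ∈ Kp a Set.univ T₀ 0 n
        · simp only
          rw [ind1 hω, Set.indicator_of_mem hω, one_mul]
          exact Gz_ge_one hl0 hY0 _ _ (hω.2 n le_rfl)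
        · simp only
          rw [ind0 hω, Set.indicator_of_notMem hω, zero_mul]
    have h0 : noise.real {ω | ∀ r, 0 < idx (walk a ω (T₀+r))} ≤ 0 := ge_of_tendsto' hlim hbound
    have h1 := le_antisymm h0 measureReal_nonneg
    rwa [measureReal_eq_zero_iff] at h1
  have hall : ∀ᵐ ω ∂noise, ∀ T₀, T₁ ≤ T₀ → 1 ≤ T₀ → ¬ ∀ r, 0 < idx (walk a ω (T₀+r)) := by
    rw [ae_all_iff]
    intro T₀
    by_cases h : T₁ ≤ T₀ ∧ 1 ≤ T₀
    · have h1 := hno T₀ h.1 h.2
      have h2 : ∀ᵐ ω ∂noise, ¬ ∀ r, 0 < idx (walk a ω (T₀+r)) := by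
        rw [ae_iff]
        simp only [not_not]
        exact h1
      filter_upwards [h2] with ω hω _ _ using hω
    · exact Eventually.of_forall fun ω h1 h2 => absurd ⟨h1, h2⟩ h
  have hfin : ∀ᵐ ω ∂noise, ¬ Tendsto (fun t => (walk a ω t).2) atTop atTop := by
    filter_upwards [hall, noise_nonneg] with ω hω hω2 ht
    have h1 := idx_of_divergence a ω hω2 ht
    obtain ⟨T₂, hT₂⟩ := eventually_atTop.1 ((tendsto_atTop.1 h1) 1)
    exact hω (max T₁ (max T₂ 1)) (le_max_left _ _) ((le_max_right _ _).trans (le_max_right _ _))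
      fun r => hT₂ _ (((le_max_left _ _).trans (le_max_right _ _)).trans (Nat.le_add_right _ _))
  rw [ae_iff] at hfin
  simpa using hfin

end

end Pool.Agent.Y774.ST
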